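import Mathlib
import Pool.Agent.Y201.LI.Free
import Pool.Agent.TH214.RM.Irr
import Pool.Agent.Y960.C3.Line

/-! # Parametrizations of degree four of cubic fourfolds with two disjoint planes -/

set_option autoImplicit false

namespace Pool.Agent.X328.NC.Sharp

open MvPolynomial Pool.Agent.Y201.C3 Pool.Agent.TH314.PD

abbrev R := MvPolynomial (Fin 4) ℂ

lemma ev {σ : Type} (b : σ → ℂ) (p : MvPolynomial σ ℂ) : eval b p = aeval b p := by
  rw [MvPolynomial.aeval_def, MvPolynomial.eval₂_eq_eval_map]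
  simp

/-- polarization on a subspace -/
lemma polar_sub {T : Fin 6 → Fin 6 → Fin 6 → ℂ} (hT : SymG T) (U : Submodule ℂ (Fin 6 → ℂ))
    (h : ∀ x ∈ U, Bg T x x x = 0) {x y z : Fin 6 → ℂ} (hx : x ∈ U) (hy : y ∈ U) (hz : z ∈ U) :
    Bg T x y z = 0 := by
  have hexp : ∀ (a : ℂ) (x y : Fin 6 → ℂ), Bg T (fun i => x i + a * y i) (fun i => x i + a * y i)
      (fun i => x i + a * y i) = Bg T x x x + 3 * a * Bg T x x y + 3 * a ^ 2 * Bg T x y y +
        a ^ 3 * Bg T y y y := by
    intro a x y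
    simp only [Bg_add1, Bg_add2, Bg_add3, Bg_smul1, Bg_smul2, Bg_smul3]
    rw [Bg_swap12 hT y x y, Bg_swap12 hT y x x, Bg_swap23 hT x y x, Bg_swap23 hT y y x,
      Bg_swap12 hT y x y]
    ring
  have hmem : ∀ (a : ℂ) {x y : Fin 6 → ℂ}, x ∈ U → y ∈ U → (fun i => x i + a * y i) ∈ U :=
    fun a x y hx hy => U.add_mem hx (U.smul_mem a hy)
  have h2 : ∀ {x y : Fin 6 → ℂ}, x ∈ U → y ∈ U → Bg T x x y = 0 := by
    intro x y hx hy
    have e1 := hexp 1 x y
    have e2 := hexp (-1) x y
    rw [h _ (hmem _ hx hy), h x hx, h y hy] at e1 e2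
    linear_combination (-1 / 6 : ℂ) * e1 + (1 / 6 : ℂ) * e2
  have hexp2 : ∀ (x y z : Fin 6 → ℂ), Bg T (fun i => x i + 1 * y i) (fun i => x i + 1 * y i)
      z = Bg T x x z + 2 * Bg T x y z + Bg T y y z := by
    intro x y z
    simp only [Bg_add1, Bg_add2, Bg_smul1, Bg_smul2]
    rw [Bg_swap12 hT y x z]
    ring
  have e1 := hexp2 x y z
  rw [h2 (hmem 1 hx hy) hz, h2 hx hz, h2 hy hz] at e1
  linear_combination (-1 / 2 : ℂ) * e1

/-- smooth hypersurfaces are irreducible -/
lemma irreducible_of_sm (F : MvPolynomial (Fin 6) ℂ) (hF : F.IsHomogeneous 3)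
    (hsm : ∀ z : Fin 6 → ℂ, (∀ i, eval z (pderiv i F) = 0) → z = 0) : Irreducible F := by
  refine Pool.Agent.TH214.RM.irreducible_of_smooth (n := 4) (by norm_num) F 3 (by norm_num) hF ?_
  intro i
  rw [← MvPolynomial.vanishingIdeal_zeroLocus_eq_radical (K := ℂ)]
  rw [MvPolynomial.mem_vanishingIdeal_iff]
  intro z hz
  have h0 : z = 0 := by
    apply hsm
    intro j
    rw [ev]
    exact (MvPolynomial.mem_zeroLocus_iff.1 hz) _ (Ideal.subset_span ⟨j, rfl⟩)
  rw [h0, aeval_X]
  rfl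

section
variable (v w : Fin 3 → Fin 6 → ℂ)

/-- the generic point of the first plane -/
noncomputable def pp : Fin 6 → R := fun i => C (v 0 i) + X 0 * C (v 1 i) + X 1 * C (v 2 i)

/-- the generic point of the second plane -/
noncomputable def qq : Fin 6 → R := fun i => C (w 0 i) + X 2 * C (w 1 i) + X 3 * C (w 2 i)

variable (T : Fin 6 → Fin 6 → Fin 6 → ℂ)

/-- the third point of intersection -/
noncomputable def GG : Fin 6 → R := fun i =>
  Bg T (pp v) (qq w) (qq w) * pp v i + (-Bg T (pp v) (pp v) (qq w)) * qq w i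

lemma totalDegree_Bg {a b c : ℕ} {x y z : Fin 6 → R} (hx : ∀ i, (x i).totalDegree ≤ a)
    (hy : ∀ i, (y i).totalDegree ≤ b) (hz : ∀ i, (z i).totalDegree ≤ c) :
    (Bg T x y z).totalDegree ≤ a + b + c := by
  unfold Bg
  refine totalDegree_finsetSum_le fun i _ => totalDegree_finsetSum_le fun j _ =>
    totalDegree_finsetSum_le fun k _ => ?_
  refine (totalDegree_mul _ _).trans (add_le_add ?_ (hz k))
  refine (totalDegree_mul _ _).trans (add_le_add ?_ (hy j))
  refine (totalDegree_mul _ _).trans ?_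
  rw [algebraMap_eq, totalDegree_C, zero_add]
  exact hx i

lemma deg_aux (a b c : ℂ) (i j : Fin 4) : (C a + X i * C b + X j * C c : R).totalDegree ≤ 1 := by
  refine (totalDegree_add _ _).trans (max_le ((totalDegree_add _ _).trans (max_le ?_ ?_)) ?_)
  · rw [totalDegree_C]
    omega
  · refine (totalDegree_mul _ _).trans ?_
    rw [totalDegree_X, totalDegree_C]
  · refine (totalDegree_mul _ _).trans ?_
    rw [totalDegree_X, totalDegree_C]

lemma GG_degree (i : Fin 6) : (GG v w T i).totalDegree ≤ 4 := by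
  have hp : ∀ i, (pp v i).totalDegree ≤ 1 := fun i => deg_aux _ _ _ _ _
  have hq : ∀ i, (qq w i).totalDegree ≤ 1 := fun i => deg_aux _ _ _ _ _
  unfold GG
  refine (totalDegree_add _ _).trans (max_le ?_ ?_)
  · exact (totalDegree_mul _ _).trans (add_le_add (totalDegree_Bg T hp hq hq) (hp i))
  · refine (totalDegree_mul _ _).trans ?_
    rw [totalDegree_neg]
    exact add_le_add (totalDegree_Bg T hp hp hq) (hq i)

lemma eval_Bg (η : Fin 4 → ℂ) (x y z : Fin 6 → R) :
    eval η (Bg T x y z) = Bg T (fun i => eval η (x i)) (fun i => eval η (y i))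
      (fun i => eval η (z i)) := by
  have h := map_Bg (aeval η : R →ₐ[ℂ] ℂ) T x y z
  simpa [MvPolynomial.coe_aeval_eq_eval] using h

lemma pp_mem (η : Fin 4 → ℂ) : (fun i => eval η (pp v i)) ∈ Submodule.span ℂ (Set.range v) := by
  have h : (fun i => eval η (pp v i)) = v 0 + η 0 • v 1 + η 1 • v 2 := by
    funext i
    simp [pp]
  rw [h]
  have hm : ∀ j, v j ∈ Submodule.span ℂ (Set.range v) := fun j => Submodule.subset_span ⟨j, rfl⟩
  exact add_mem (add_mem (hm 0) (Submodule.smul_mem _ _ (hm 1))) (Submodule.smul_mem _ _ (hm 2))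

lemma qq_mem (η : Fin 4 → ℂ) : (fun i => eval η (qq w i)) ∈ Submodule.span ℂ (Set.range w) := by
  have h : (fun i => eval η (qq w i)) = w 0 + η 2 • w 1 + η 3 • w 2 := by
    funext i
    simp [qq]
  rw [h]
  have hm : ∀ j, w j ∈ Submodule.span ℂ (Set.range w) := fun j => Submodule.subset_span ⟨j, rfl⟩
  exact add_mem (add_mem (hm 0) (Submodule.smul_mem _ _ (hm 1))) (Submodule.smul_mem _ _ (hm 2))

variable {T} {v w} (hT : SymG T)
  (hU : ∀ x ∈ Submodule.span ℂ (Set.range v), Bg T x x x = 0)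
  (hW : ∀ x ∈ Submodule.span ℂ (Set.range w), Bg T x x x = 0)
  (hli : LinearIndependent ℂ (Sum.elim v w)) (hS : SmoothT T)

include hT hU hW in
lemma GG_on : aeval (GG v w T) (Bg T X X X : MvPolynomial (Fin 6) ℂ) = 0 := by
  rw [aeval_frmG]
  have h1 : Bg T (pp v) (pp v) (pp v) = 0 := by
    refine MvPolynomial.funext fun η => ?_
    rw [eval_Bg, map_zero]
    exact hU _ (pp_mem v η)
  have h2 : Bg T (qq w) (qq w) (qq w) = 0 := by
    refine MvPolynomial.funext fun η => ?_
    rw [eval_Bg, map_zero]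
    exact hW _ (qq_mem w η)
  unfold GG
  simp only [Bg_add1, Bg_add2, Bg_add3, Bg_smul1, Bg_smul2, Bg_smul3]
  rw [h1, h2, Bg_swap12 hT (qq w) (pp v) (qq w), Bg_swap23 hT (pp v) (qq w) (pp v),
    swap13 hT (qq w) (pp v) (pp v), swap13 hT (qq w) (qq w) (pp v)]
  ring

include hli in
lemma span_top : Submodule.span ℂ (Set.range (Sum.elim v w)) = ⊤ := by
  apply hli.span_eq_top_of_card_eq_finrank'
  simp

include hT hS hli hW in
lemma al_ne : Bg T (pp v) (qq w) (qq w) ≠ 0 := by
  intro h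
  have h1 : ∀ η : Fin 4 → ℂ, Bg T (fun i => eval η (pp v i)) (fun i => eval η (qq w i))
      (fun i => eval η (qq w i)) = 0 := by
    intro η
    rw [← eval_Bg, h, map_zero]
  have hq0 : (fun i => eval (![0, 0, 0, 0] : Fin 4 → ℂ) (qq w i)) = w 0 := by
    funext i
    simp [qq]
  have hv0 : Bg T (v 0) (w 0) (w 0) = 0 := by
    have h2 := h1 ![0, 0, 0, 0]
    have hp : (fun i => eval (![0, 0, 0, 0] : Fin 4 → ℂ) (pp v i)) = v 0 := by
      funext i
      simp [pp]
    rwa [hp, hq0] at h2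
  have hv1 : Bg T (v 1) (w 0) (w 0) = 0 := by
    have h2 := h1 ![1, 0, 0, 0]
    have hp : (fun i => eval (![1, 0, 0, 0] : Fin 4 → ℂ) (pp v i)) = fun i => v 0 i + v 1 i := by
      funext i
      simp [pp]
    have hq : (fun i => eval (![1, 0, 0, 0] : Fin 4 → ℂ) (qq w i)) = w 0 := by
      funext i
      simp [qq]
    rwa [hp, hq, Bg_add1, hv0, zero_add] at h2
  have hv2 : Bg T (v 2) (w 0) (w 0) = 0 := by
    have h2 := h1 ![0, 1, 0, 0]
    have hp : (fun i => eval (![0, 1, 0, 0] : Fin 4 → ℂ) (pp v i)) = fun i => v 0 i + v 2 i := by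
      funext i
      simp [pp]
    have hq : (fun i => eval (![0, 1, 0, 0] : Fin 4 → ℂ) (qq w i)) = w 0 := by
      funext i
      simp [qq]
    rwa [hp, hq, Bg_add1, hv0, zero_add] at h2
  have hwm : ∀ j, w j ∈ Submodule.span ℂ (Set.range w) := fun j => Submodule.subset_span ⟨j, rfl⟩
  have hw : ∀ j, Bg T (w j) (w 0) (w 0) = 0 := fun j =>
    polar_sub hT _ hW (hwm j) (hwm 0) (hwm 0)
  have hall : ∀ x : Fin 6 → ℂ, Bg T x (w 0) (w 0) = 0 := by
    intro x
    have hx : x ∈ Submodule.span ℂ (Set.range (Sum.elim v w)) := by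
      rw [span_top hli]
      trivial
    induction hx using Submodule.span_induction with
    | mem x hx =>
      obtain ⟨a | a, rfl⟩ := hx
      · fin_cases a
        · exact hv0
        · exact hv1
        · exact hv2
      · exact hw a
    | zero => exact Bg_zero1 T _ _
    | add x y _ _ hx hy =>
      have : Bg T (x + y) (w 0) (w 0) = Bg T x (w 0) (w 0) + Bg T y (w 0) (w 0) :=
        Bg_add1 T x y _ _
      rw [this, hx, hy, add_zero]
    | smul a x _ hx =>
      have : Bg T (a • x) (w 0) (w 0) = a * Bg T x (w 0) (w 0) := Bg_smul1 T a x _ _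
      rw [this, hx, mul_zero]
  have hz : w 0 = 0 := by
    apply hS
    intro i
    rw [smooth_iff]
    exact hall _
  exact hli.ne_zero (Sum.inr 0) hz

include hT hS hli hU in
lemma be_ne : Bg T (pp v) (pp v) (qq w) ≠ 0 := by
  intro h
  have h1 : ∀ η : Fin 4 → ℂ, Bg T (fun i => eval η (pp v i)) (fun i => eval η (pp v i))
      (fun i => eval η (qq w i)) = 0 := by
    intro η
    rw [← eval_Bg, h, map_zero]
  have hw0 : Bg T (w 0) (v 0) (v 0) = 0 := by
    have h2 := h1 ![0, 0, 0, 0]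
    have hp : (fun i => eval (![0, 0, 0, 0] : Fin 4 → ℂ) (pp v i)) = v 0 := by
      funext i
      simp [pp]
    have hq : (fun i => eval (![0, 0, 0, 0] : Fin 4 → ℂ) (qq w i)) = w 0 := by
      funext i
      simp [qq]
    rw [hp, hq, swap13 hT] at h2
    exact h2
  have hw1 : Bg T (w 1) (v 0) (v 0) = 0 := by
    have h2 := h1 ![0, 0, 1, 0]
    have hp : (fun i => eval (![0, 0, 1, 0] : Fin 4 → ℂ) (pp v i)) = v 0 := by
      funext i
      simp [pp]
    have hq : (fun i => eval (![0, 0, 1, 0] : Fin 4 → ℂ) (qq w i)) = fun i => w 0 i + w 1 i := by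
      funext i
      simp [qq]
    rwa [hp, hq, swap13 hT, Bg_add1, hw0, zero_add] at h2
  have hw2 : Bg T (w 2) (v 0) (v 0) = 0 := by
    have h2 := h1 ![0, 0, 0, 1]
    have hp : (fun i => eval (![0, 0, 0, 1] : Fin 4 → ℂ) (pp v i)) = v 0 := by
      funext i
      simp [pp]
    have hq : (fun i => eval (![0, 0, 0, 1] : Fin 4 → ℂ) (qq w i)) = fun i => w 0 i + w 2 i := by
      funext i
      simp [qq]
    rwa [hp, hq, swap13 hT, Bg_add1, hw0, zero_add] at h2
  have hvm : ∀ j, v j ∈ Submodule.span ℂ (Set.range v) := fun j => Submodule.subset_span ⟨j, rfl⟩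
  have hv : ∀ j, Bg T (v j) (v 0) (v 0) = 0 := fun j =>
    polar_sub hT _ hU (hvm j) (hvm 0) (hvm 0)
  have hall : ∀ x : Fin 6 → ℂ, Bg T x (v 0) (v 0) = 0 := by
    intro x
    have hx : x ∈ Submodule.span ℂ (Set.range (Sum.elim v w)) := by
      rw [span_top hli]
      trivial
    induction hx using Submodule.span_induction with
    | mem x hx =>
      obtain ⟨a | a, rfl⟩ := hx
      · exact hv a
      · fin_cases a
        · exact hw0
        · exact hw1
        · exact hw2
    | zero => exact Bg_zero1 T _ _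
    | add x y _ _ hx hy =>
      have : Bg T (x + y) (v 0) (v 0) = Bg T x (v 0) (v 0) + Bg T y (v 0) (v 0) :=
        Bg_add1 T x y _ _
      rw [this, hx, hy, add_zero]
    | smul a x _ hx =>
      have : Bg T (a • x) (v 0) (v 0) = a * Bg T x (v 0) (v 0) := Bg_smul1 T a x _ _
      rw [this, hx, mul_zero]
  have hz : v 0 = 0 := by
    apply hS
    intro i
    rw [smooth_iff]
    exact hall _
  exact hli.ne_zero (Sum.inl 0) hz

end

end Pool.Agent.X328.NC.Sharp
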