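import Mathlib
import Pool.Agent.X328.NC.Sharp

/-! # Parametrizations of degree four: the map is birational -/

set_option autoImplicit false

namespace Pool.Agent.X328.NC.Sharp

open MvPolynomial Pool.Agent.Y201.C3 Pool.Agent.TH314.PD Module

abbrev MM := FractionRing R

variable {v w : Fin 3 → Fin 6 → ℂ}

lemma exists_dual (hli : LinearIndependent ℂ (Sum.elim v w)) :
    ∃ φ : Fin 3 ⊕ Fin 3 → Fin 6 → ℂ, ∀ a c, ∑ i, φ a i * (Sum.elim v w c : Fin 6 → ℂ) i =
      if a = c then 1 else 0 := by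
  classical
  let b := basisOfLinearIndependentOfCardEqFinrank hli (by simp)
  refine ⟨fun a i => b.coord a (Pi.single i 1), fun a c => ?_⟩
  have hb : b c = Sum.elim v w c := by simp [b]
  have h1 : ∀ x : Fin 6 → ℂ, ∑ i, b.coord a (Pi.single i 1) * x i = b.coord a x := by
    intro x
    conv_rhs => rw [← Finset.univ_sum_single x]
    rw [map_sum]
    refine Finset.sum_congr rfl fun i _ => ?_
    have h2 : (Pi.single i (x i) : Fin 6 → ℂ) = x i • Pi.single i 1 := by
      rw [← Pi.single_smul, smul_eq_mul, mul_one]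
    rw [h2, map_smul, smul_eq_mul, mul_comm]
  rw [h1, ← hb, Basis.coord_apply, Basis.repr_self, Finsupp.single_apply]
  by_cases h : a = c
  · rw [if_pos h, if_pos h.symm]
  · rw [if_neg h, if_neg (Ne.symm h)]

variable {T : Fin 6 → Fin 6 → Fin 6 → ℂ}

lemma lin_GG (φ : Fin 6 → ℂ) : ∑ i, C (φ i) * GG v w T i =
    Bg T (pp v) (qq w) (qq w) * (C (∑ i, φ i * v 0 i) + X 0 * C (∑ i, φ i * v 1 i) +
      X 1 * C (∑ i, φ i * v 2 i)) +
    (-Bg T (pp v) (pp v) (qq w)) * (C (∑ i, φ i * w 0 i) + X 2 * C (∑ i, φ i * w 1 i) +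
      X 3 * C (∑ i, φ i * w 2 i)) := by
  unfold GG
  simp only [map_sum, Finset.mul_sum, ← Finset.sum_add_distrib]
  refine Finset.sum_congr rfl fun i _ => ?_
  simp only [C_mul]
  unfold pp qq
  ring

theorem param {F : MvPolynomial (Fin 6) ℂ} (hF : F.IsHomogeneous 3)
    (hsm : ∀ z : Fin 6 → ℂ, (∀ i, eval z (pderiv i F) = 0) → z = 0)
    (hli : LinearIndependent ℂ (Sum.elim v w))
    (hv : ∀ c : Fin 3 → ℂ, eval (∑ j, c j • v j) F = 0)
    (hw : ∀ c : Fin 3 → ℂ, eval (∑ j, c j • w j) F = 0) :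
    ∃ G : Fin 6 → MvPolynomial (Fin 4) ℂ, (∀ i, (G i).totalDegree ≤ 4) ∧ aeval G F = 0 ∧
      (∀ (e : ℕ) (H : MvPolynomial (Fin 6) ℂ), H.IsHomogeneous e → aeval G H = 0 → F ∣ H) ∧
      ratioField (fun i => algebraMap (MvPolynomial (Fin 4) ℂ)
        (FractionRing (MvPolynomial (Fin 4) ℂ)) (G i)) = ⊤ := by
  classical
  have hirr := irreducible_of_sm F hF hsm
  have hF0 : F ≠ 0 := hirr.ne_zero
  have hprime : ∀ (a b : ℕ) (A B : MvPolynomial (Fin 6) ℂ), A.IsHomogeneous a →
      B.IsHomogeneous b → F ∣ A * B → F ∣ A ∨ F ∣ B := fun a b A B _ _ h =>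
    hirr.prime.dvd_or_dvd h
  obtain ⟨T, hT, hFT⟩ := exists_tri F hF
  have hS : SmoothT T := by
    intro z hz
    apply hsm
    intro i
    have h1 := pderiv_frmG hT i z
    have h2 := hz i
    rw [smooth_iff, Bf_eq] at h2
    rw [h2, mul_zero, ← hFT] at h1
    rw [← h1, ev]
  have hU : ∀ x ∈ Submodule.span ℂ (Set.range v), Bg T x x x = 0 := by
    intro x hx
    obtain ⟨c, rfl⟩ := (Submodule.mem_span_range_iff_exists_fun ℂ).1 hx
    have h := hv c
    rw [ev, hFT, aeval_frmG] at h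
    exact h
  have hW : ∀ x ∈ Submodule.span ℂ (Set.range w), Bg T x x x = 0 := by
    intro x hx
    obtain ⟨c, rfl⟩ := (Submodule.mem_span_range_iff_exists_fun ℂ).1 hx
    have h := hw c
    rw [ev, hFT, aeval_frmG] at h
    exact h
  have hal := al_ne hT hW hli hS
  have hbe := be_ne hT hU hli hS
  set al := Bg T (pp v) (qq w) (qq w) with hald
  set be := -Bg T (pp v) (pp v) (qq w) with hbed
  have hbe' : be ≠ 0 := neg_ne_zero.2 hbe
  have hinj : Function.Injective (algebraMap R MM) := IsFractionRing.injective R MM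
  set y : Fin 6 → MM := fun i => algebraMap R MM (GG v w T i) with hy
  obtain ⟨φ, hφ⟩ := exists_dual hli
  let L : Fin 3 ⊕ Fin 3 → MvPolynomial (Fin 6) ℂ := fun a => ∑ i, C (φ a i) * X i
  have hLh : ∀ a, (L a).IsHomogeneous 1 := fun a =>
    IsHomogeneous.sum _ _ _ fun i _ => (isHomogeneous_C _ _).mul (isHomogeneous_X ℂ i)
  have hLy : ∀ a, aeval y (L a) = algebraMap R MM (∑ i, C (φ a i) * GG v w T i) := by
    intro a
    rw [map_sum, map_sum]
    refine Finset.sum_congr rfl fun i _ => ?_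
    rw [map_mul, map_mul, aeval_X, aeval_C]
    rfl
  have hLv : ∀ a, ∑ i, C (φ a i) * GG v w T i =
      al * (C (if a = Sum.inl 0 then 1 else 0) + X 0 * C (if a = Sum.inl 1 then 1 else 0) +
        X 1 * C (if a = Sum.inl 2 then 1 else 0)) +
      be * (C (if a = Sum.inr 0 then 1 else 0) + X 2 * C (if a = Sum.inr 1 then 1 else 0) +
        X 3 * C (if a = Sum.inr 2 then 1 else 0)) := by
    intro a
    rw [lin_GG, ← hald, ← hbed, ← hφ a (Sum.inl 0), ← hφ a (Sum.inl 1), ← hφ a (Sum.inl 2),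
      ← hφ a (Sum.inr 0), ← hφ a (Sum.inr 1), ← hφ a (Sum.inr 2)]
    rfl
  have hyne : ∃ b, y b ≠ 0 := by
    by_contra hcon
    push Not at hcon
    have h1 : aeval y (L (Sum.inl 0)) = 0 := by
      change aeval y (∑ i, C (φ (Sum.inl 0) i) * X i) = 0
      rw [map_sum]
      refine Finset.sum_eq_zero fun i _ => ?_
      rw [map_mul, aeval_X, hcon, mul_zero]
    rw [hLy, hLv] at h1
    simp only [reduceCtorEq, Sum.inl.injEq, if_true, if_false, C_1, C_0, mul_zero, add_zero,
      mul_one, zero_ne_one, Fin.reduceEq, Fin.isValue] at h1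
    exact hal ((map_eq_zero_iff _ hinj).1 h1)
  have hX : ∀ l : Fin 4, algebraMap R MM (X l) ∈ ratioField y := by
    have hk : ∀ (l : Fin 4) (a c : Fin 3 ⊕ Fin 3) (μ : R), μ ≠ 0 →
        ∑ i, C (φ a i) * GG v w T i = μ * X l → ∑ i, C (φ c i) * GG v w T i = μ →
        algebraMap R MM (X l) ∈ ratioField y := by
      intro l a c μ hμ h1 h2
      have h3 := ratio_mem y hyne (hLh a) (hLh c)
      rw [hLy, hLy, h1, h2, map_mul, mul_div_cancel_left₀] at h3
      · exact h3
      · exact fun h => hμ ((map_eq_zero_iff _ hinj).1 h)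
    intro l
    fin_cases l
    · refine hk 0 (Sum.inl 1) (Sum.inl 0) al hal ?_ ?_ <;> rw [hLv] <;> simp
    · refine hk 1 (Sum.inl 2) (Sum.inl 0) al hal ?_ ?_ <;> rw [hLv] <;> simp
    · refine hk 2 (Sum.inr 1) (Sum.inr 0) be hbe' ?_ ?_ <;> rw [hLv] <;> simp
    · refine hk 3 (Sum.inr 2) (Sum.inr 0) be hbe' ?_ ?_ <;> rw [hLv] <;> simp
  have htop : ratioField y = ⊤ := by
    have h3 : ∀ p : R, algebraMap R MM p ∈ ratioField y := by
      intro p
      induction p using MvPolynomial.induction_on with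
      | C a =>
        have : algebraMap R MM (C a) = algebraMap ℂ MM a :=
          (IsScalarTower.algebraMap_apply ℂ R MM a).symm
        rw [this]
        exact (ratioField y).algebraMap_mem a
      | add f g hf hg =>
        rw [map_add]
        exact add_mem hf hg
      | mul_X f i hf =>
        rw [map_mul]
        exact mul_mem hf (hX i)
    rw [eq_top_iff]
    intro z _
    obtain ⟨a, b, h⟩ := IsFractionRing.div_surjective (A := R) z
    rw [← h.2]
    exact div_mem (h3 a) (h3 b)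
  have htr : Algebra.trdeg ℂ MM = 4 := by
    have : Algebra.IsAlgebraic R MM :=
      (IsFractionRing.comap_isAlgebraic_iff (K := FractionRing R)).2 inferInstance
    have h3 := (IsTranscendenceBasis.mvPolynomial (Fin 4) ℂ).algebraMap_comp
      (A := FractionRing (MvPolynomial (Fin 4) ℂ))
    rw [← h3.cardinalMk_eq_trdeg]
    simp
  have hfin : FiniteDimensional (ratioField y) MM := by
    apply FiniteDimensional.of_finrank_pos
    rw [IntermediateField.finrank_eq_one_iff_eq_top.2 htop]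
    exact one_pos
  have hon : aeval (GG v w T) F = 0 := by
    rw [hFT]
    exact GG_on hT hU hW
  have hay : ∀ H : MvPolynomial (Fin 6) ℂ, aeval y H = algebraMap R MM (aeval (GG v w T) H) := by
    intro H
    have : (aeval y : MvPolynomial (Fin 6) ℂ →ₐ[ℂ] MM) =
        (IsScalarTower.toAlgHom ℂ R MM).comp (aeval (GG v w T)) := by
      apply algHom_ext
      intro i
      rw [aeval_X, AlgHom.comp_apply, aeval_X]
      rfl
    rw [this]
    rfl
  refine ⟨GG v w T, GG_degree v w T, hon, ?_, htop⟩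
  intro e H hH hH0
  obtain ⟨j, hj⟩ := hyne
  obtain ⟨ζ, hζ⟩ := Pool.Agent.Y960.C3.exists_zeta htr y j hj hfin
  refine dom_of_indep (n := 4) hF (by norm_num) hF0 hprime (aeval y)
    (Fin.cons j ζ : Fin 5 → Fin 6) (by rw [hay, hon, map_zero]) ?_ hH (by rw [hay, hH0, map_zero])
  intro l A hA hA0
  rw [aeval_rename] at hA0
  refine Pool.Agent.Y960.C3.no_form (fun l => y (ζ l) / y j) hζ (y j) hj l A hA ?_
  rw [← hA0]
  congr 2
  funext i
  refine Fin.cases ?_ (fun l => ?_) i
  · rw [Fin.cons_zero, mul_one]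
    rfl
  · rw [Fin.cons_succ]
    change y j * (y (ζ l) / y j) = y (ζ l)
    field_simp

end Pool.Agent.X328.NC.Sharp
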