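import Mathlib
import Pool.Agent.X328.NC.Sharp2

/-! # The Fermat cubic fourfold has two disjoint planes -/

set_option autoImplicit false

namespace Pool.Agent.X328.NC.Fermat

open MvPolynomial

/-- the Fermat cubic -/
noncomputable def fermat : MvPolynomial (Fin 6) ℂ := ∑ i, X i ^ 3

lemma fermat_hom : fermat.IsHomogeneous 3 := by
  unfold fermat
  refine IsHomogeneous.sum _ _ _ fun i _ => ?_
  have := (isHomogeneous_X ℂ i).pow 3
  simpa using this

lemma eval_fermat (x : Fin 6 → ℂ) : eval x fermat = ∑ i, x i ^ 3 := by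
  simp [fermat]

lemma fermat_smooth (z : Fin 6 → ℂ) (h : ∀ i, eval z (pderiv i fermat) = 0) : z = 0 := by
  classical
  funext i
  have h1 := h i
  have h2 : pderiv i fermat = 3 * X i ^ 2 := by
    unfold fermat
    rw [map_sum, Finset.sum_eq_single i]
    · rw [pderiv_pow, pderiv_X_self, mul_one]
      norm_num
    · intro j _ hj
      rw [pderiv_pow, pderiv_X_of_ne hj, mul_zero]
    · intro hi
      exact absurd (Finset.mem_univ i) hi
  rw [h2] at h1
  simpa using h1

/-- a primitive cube root of one -/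
lemma exists_omega : ∃ o : ℂ, o ^ 3 = 1 ∧ o ≠ 1 := by
  have h := Complex.isPrimitiveRoot_exp 3 (by norm_num)
  refine ⟨_, h.pow_eq_one, h.ne_one (by norm_num)⟩

/-- the plane `x_1 = - o x_0, x_3 = - o x_2, x_5 = - o x_4` -/
def pl (o : ℂ) : Fin 3 → Fin 6 → ℂ :=
  ![![1, -o, 0, 0, 0, 0], ![0, 0, 1, -o, 0, 0], ![0, 0, 0, 0, 1, -o]]

lemma eval_pl {o : ℂ} (ho : o ^ 3 = 1) (c : Fin 3 → ℂ) :
    eval (∑ j, c j • pl o j) fermat = 0 := by
  rw [eval_fermat]
  simp only [Fin.sum_univ_succ, Fin.sum_univ_zero, pl, Pi.add_apply, Pi.smul_apply, smul_eq_mul,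
    Matrix.cons_val_zero, Matrix.cons_val_succ, Pi.zero_apply]
  simp
  linear_combination (- c 0 ^ 3 - c 1 ^ 3 - c 2 ^ 3) * ho

lemma li {o : ℂ} (ho : o ≠ 1) : LinearIndependent ℂ (Sum.elim (pl 1) (pl o)) := by
  rw [Fintype.linearIndependent_iff]
  intro g hg
  rw [Fintype.sum_sum_type] at hg
  simp only [Sum.elim_inl, Sum.elim_inr] at hg
  have e0 := congrFun hg 0
  have e1 := congrFun hg 1
  have e2 := congrFun hg 2
  have e3 := congrFun hg 3
  have e4 := congrFun hg 4
  have e5 := congrFun hg 5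
  simp [Fin.sum_univ_succ, pl] at e0 e1 e2 e3 e4 e5
  have ho' : (1 - o) ≠ 0 := sub_ne_zero.2 (Ne.symm ho)
  have f0 : g (Sum.inr 0) = 0 := by
    have k : (1 - o) * g (Sum.inr 0) = 0 := by linear_combination e0 + e1
    exact (mul_eq_zero.1 k).resolve_left ho'
  have f1 : g (Sum.inr 1) = 0 := by
    have k : (1 - o) * g (Sum.inr 1) = 0 := by linear_combination e2 + e3
    exact (mul_eq_zero.1 k).resolve_left ho'
  have f2 : g (Sum.inr 2) = 0 := by
    have k : (1 - o) * g (Sum.inr 2) = 0 := by linear_combination e4 + e5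
    exact (mul_eq_zero.1 k).resolve_left ho'
  have g0 : g (Sum.inl 0) = 0 := by linear_combination e0 - f0
  have g1 : g (Sum.inl 1) = 0 := by linear_combination e2 - f1
  have g2 : g (Sum.inl 2) = 0 := by linear_combination e4 - f2
  rintro (i | i)
  · fin_cases i <;> assumption
  · fin_cases i <;> assumption

end Pool.Agent.X328.NC.Fermat
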