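import Mathlib
import Pool.Agent.Y201.C3.Stm

/-! # The lemma AN -/

set_option autoImplicit false

namespace Pool.Agent.X328.NC.An

open MvPolynomial

abbrev R := MvPolynomial (Fin 4) ℂ

lemma pencil {al be ga f g : R} (hal : al ≠ 0 → al.totalDegree = 1) (hbe : be.totalDegree ≤ 1)
    (hga : ga ≠ 0 → ga.totalDegree = 1) (h : al * f ^ 2 + be * (f * g) + ga * g ^ 2 = 0)
    (hfg : f ≠ 0 ∨ g ≠ 0)
    (hno : ∀ s t : ℂ, (s ≠ 0 ∨ t ≠ 0) → C (s ^ 2) * al + C (s * t) * be + C (t ^ 2) * ga ≠ 0) :
    False := by
  have hal0 : al ≠ 0 := by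
    have := hno 1 0 (Or.inl one_ne_zero)
    simpa using this
  have hga0 : ga ≠ 0 := by
    have := hno 0 1 (Or.inr one_ne_zero)
    simpa using this
  have hf0 : f ≠ 0 := by
    rintro rfl
    rw [zero_pow two_ne_zero, mul_zero, zero_mul, mul_zero, zero_add, zero_add] at h
    exact (mul_ne_zero hga0 (pow_ne_zero 2 (hfg.resolve_left (by simp)))) h
  have hg0 : g ≠ 0 := by
    rintro rfl
    rw [zero_pow two_ne_zero, mul_zero, mul_zero, mul_zero, add_zero, add_zero] at h
    exact (mul_ne_zero hal0 (pow_ne_zero 2 hf0)) h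
  obtain ⟨f', g', c, hrel, hf, hg⟩ := UniqueFactorizationMonoid.exists_reduced_factors f hf0 g
  have hc0 : c ≠ 0 := by
    rintro rfl
    rw [zero_mul] at hf
    exact hf0 hf.symm
  have hf'0 : f' ≠ 0 := by
    rintro rfl
    rw [mul_zero] at hf
    exact hf0 hf.symm
  have hg'0 : g' ≠ 0 := by
    rintro rfl
    rw [mul_zero] at hg
    exact hg0 hg.symm
  have h' : al * f' ^ 2 + be * (f' * g') + ga * g' ^ 2 = 0 := by
    rw [← hf, ← hg] at h
    have h1 : c ^ 2 * (al * f' ^ 2 + be * (f' * g') + ga * g' ^ 2) = 0 := by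
      rw [← h]
      ring
    exact (mul_eq_zero.1 h1).resolve_left (pow_ne_zero 2 hc0)
  have hd1 : f' ∣ ga := by
    have h1 : f' ∣ ga * g' ^ 2 := ⟨-(al * f' + be * g'), by linear_combination h'⟩
    exact (hrel.pow_right (n := 2)).dvd_of_dvd_mul_right h1
  have hd2 : g' ∣ al := by
    have h1 : g' ∣ al * f' ^ 2 := ⟨-(be * f' + ga * g'), by linear_combination h'⟩
    exact (hrel.symm.pow_right (n := 2)).dvd_of_dvd_mul_right h1
  obtain ⟨ga', hga'⟩ := hd1
  obtain ⟨al', hal'⟩ := hd2
  have hga'0 : ga' ≠ 0 := by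
    rintro rfl
    rw [mul_zero] at hga'
    exact hga0 hga'
  have hal'0 : al' ≠ 0 := by
    rintro rfl
    rw [mul_zero] at hal'
    exact hal0 hal'
  have hE : al' * f' + be + ga' * g' = 0 := by
    have h1 : (f' * g') * (al' * f' + be + ga' * g') = 0 := by
      rw [← h', hga', hal']
      ring
    exact (mul_eq_zero.1 h1).resolve_left (mul_ne_zero hf'0 hg'0)
  have hdg := hga hga0
  have hda := hal hal0
  rw [hga', totalDegree_mul_of_isDomain hf'0 hga'0] at hdg
  rw [hal', totalDegree_mul_of_isDomain hg'0 hal'0] at hda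
  have e1 := totalDegree_mul_of_isDomain hal'0 hf'0
  have e2 := totalDegree_mul_of_isDomain hga'0 hg'0
  rcases Nat.eq_zero_or_pos f'.totalDegree with hf1 | hf1
  · rcases Nat.eq_zero_or_pos g'.totalDegree with hg1 | hg1
    · -- both constant
      rw [totalDegree_eq_zero_iff_eq_C] at hf1 hg1
      set s := coeff 0 f'
      set t := coeff 0 g'
      have hs : s ≠ 0 := by
        intro hs
        rw [hs, C_0] at hf1
        exact hf'0 hf1
      apply hno s t (Or.inl hs)
      rw [hf1, hg1] at h'
      rw [← h', C_pow, C_mul, C_pow]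
      ring
    · -- `f'` constant, `al'` constant
      have h1 : (ga' * g').totalDegree ≤ 1 := by
        have h2 : ga' * g' = -(al' * f') - be := by linear_combination hE
        rw [h2]
        refine (totalDegree_sub _ _).trans (max_le ?_ hbe)
        rw [totalDegree_neg]
        omega
      omega
  · rcases Nat.eq_zero_or_pos g'.totalDegree with hg1 | hg1
    · have h1 : (al' * f').totalDegree ≤ 1 := by
        have h2 : al' * f' = -(ga' * g') - be := by linear_combination hE
        rw [h2]
        refine (totalDegree_sub _ _).trans (max_le ?_ hbe)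
        rw [totalDegree_neg]
        omega
      omega
    · -- `al'` and `ga'` constant
      have ha1 : al'.totalDegree = 0 := by omega
      have hg2 : ga'.totalDegree = 0 := by omega
      rw [totalDegree_eq_zero_iff_eq_C] at ha1 hg2
      set s := coeff 0 ga'
      set t := coeff 0 al'
      have hs : s ≠ 0 := by
        intro hs
        rw [hs, C_0] at hg2
        exact hga'0 hg2
      apply hno s t (Or.inl hs)
      have hbe' : be = -(al' * f') - ga' * g' := by linear_combination hE
      rw [hbe', hga', hal', C_pow, C_mul, C_pow, ← hg2, ← ha1]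
      ring

/-- the substitution `X ↦ η + t X` -/
noncomputable def Phi (η : Fin 4 → ℂ) : R →ₐ[ℂ] Polynomial R :=
  aeval fun l => Polynomial.C (C (η l)) + Polynomial.C (X l) * Polynomial.X

lemma Phi_zero (η : Fin 4 → ℂ) (p : R) : (Phi η p).coeff 0 = C (eval η p) := by
  have h : (Polynomial.evalRingHom (0 : R)).comp (Phi η : R →+* Polynomial R) =
      (C : ℂ →+* R).comp (eval η) := by
    apply MvPolynomial.ringHom_ext
    · intro c
      rw [RingHom.comp_apply, RingHom.comp_apply, eval_C]
      change Polynomial.eval 0 (Phi η (algebraMap ℂ R c)) = _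
      rw [(Phi η).commutes]
      change Polynomial.eval 0 (Polynomial.C (C c)) = _
      rw [Polynomial.eval_C]
    · intro i
      rw [RingHom.comp_apply, RingHom.comp_apply, eval_X]
      change Polynomial.eval 0 (Phi η (X i)) = _
      unfold Phi
      rw [aeval_X]
      simp
  rw [Polynomial.coeff_zero_eq_eval_zero]
  exact congrArg (fun φ => φ p) h

/-- the linear part at `η` -/
noncomputable def lin (η : Fin 4 → ℂ) (p : R) : R := ∑ l, X l * C (eval η (pderiv l p))

lemma Phi_one (η : Fin 4 → ℂ) (p : R) : (Phi η p).coeff 1 = lin η p := by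
  induction p using MvPolynomial.induction_on with
  | C c =>
    have h1 : Phi η (C c) = Polynomial.C (C c) := (Phi η).commutes c
    rw [h1, Polynomial.coeff_C, if_neg one_ne_zero]
    unfold lin
    simp
  | add p q hp hq =>
    rw [map_add, Polynomial.coeff_add, hp, hq]
    unfold lin
    rw [← Finset.sum_add_distrib]
    refine Finset.sum_congr rfl fun l _ => ?_
    rw [map_add, map_add, C_add]
    ring
  | mul_X p i hp =>
    rw [map_mul, Polynomial.mul_coeff_one, hp, Phi_zero]
    have h1 : (Phi η (X i)).coeff 0 = C (η i) := by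
      rw [Phi_zero, eval_X]
    have h2 : (Phi η (X i)).coeff 1 = X i := by
      unfold Phi
      rw [aeval_X]
      simp [Polynomial.coeff_C]
    rw [h1, h2]
    unfold lin
    rw [Finset.sum_mul]
    have h3 : ∀ l : Fin 4, (X l : R) * C (eval η (pderiv l (p * X i))) =
        X l * C (eval η (pderiv l p)) * C (η i) +
          (if l = i then C (eval η p) * X i else 0) := by
      intro l
      rw [Derivation.leibniz, smul_eq_mul, smul_eq_mul, map_add, map_mul, map_mul, eval_X, C_add,
        C_mul, C_mul, pderiv_X]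
      by_cases hl : l = i
      · subst hl
        rw [Pi.single_eq_same, map_one, C_1, if_pos rfl]
        ring
      · rw [Pi.single_eq_of_ne (Ne.symm hl), map_zero, C_0, if_neg hl]
        ring
    rw [Finset.sum_congr rfl fun l _ => h3 l, Finset.sum_add_distrib,
      Finset.sum_ite_eq' Finset.univ i, if_pos (Finset.mem_univ _)]
    ring

lemma Phi_inj (η : Fin 4 → ℂ) : Function.Injective (Phi η) := by
  let ψ : Polynomial R →+* R :=
    Polynomial.eval₂RingHom (aeval fun l => X l - C (η l) : R →ₐ[ℂ] R).toRingHom 1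
  have h : ∀ p, ψ (Phi η p) = p := by
    intro p
    induction p using MvPolynomial.induction_on with
    | C c =>
      have h1 : Phi η (C c) = Polynomial.C (C c) := (Phi η).commutes c
      rw [h1]
      simp [ψ]
    | add p q hp hq => rw [map_add, map_add, hp, hq]
    | mul_X p i hp =>
      rw [map_mul, map_mul, hp]
      congr 1
      unfold Phi
      rw [aeval_X]
      simp [ψ]
  exact Function.LeftInverse.injective h

lemma lin_degree (η : Fin 4 → ℂ) (p : R) : (lin η p).totalDegree ≤ 1 := by
  unfold lin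
  refine totalDegree_finsetSum_le fun l _ => ?_
  refine (totalDegree_mul _ _).trans ?_
  rw [totalDegree_X, totalDegree_C]

lemma lin_degree' (η : Fin 4 → ℂ) (p : R) (h : lin η p ≠ 0) : (lin η p).totalDegree = 1 := by
  have hh : (lin η p).IsHomogeneous 1 := by
    unfold lin
    refine IsHomogeneous.sum _ _ _ fun l _ => ?_
    exact (isHomogeneous_X ℂ l).mul (isHomogeneous_C _ _)
  exact hh.totalDegree h

lemma lin_ne (η : Fin 4 → ℂ) (p : R) (h : ∃ l, eval η (pderiv l p) ≠ 0) : lin η p ≠ 0 := by
  obtain ⟨l, hl⟩ := h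
  intro h0
  apply hl
  have h1 := congrArg (eval (Pi.single l (1 : ℂ))) h0
  unfold lin at h1
  rw [map_sum, map_zero] at h1
  rw [← h1, Finset.sum_eq_single l]
  · rw [map_mul, eval_X, eval_C, Pi.single_eq_same, one_mul]
  · intro i _ hi
    rw [map_mul, eval_X, Pi.single_eq_of_ne hi, zero_mul]
  · intro h
    exact absurd (Finset.mem_univ _) h

lemma lin_add (η : Fin 4 → ℂ) (p q : R) : lin η (p + q) = lin η p + lin η q := by
  rw [← Phi_one, ← Phi_one, ← Phi_one, map_add, Polynomial.coeff_add]

lemma lin_C_mul (η : Fin 4 → ℂ) (c : ℂ) (p : R) : lin η (C c * p) = C c * lin η p := by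
  have h1 : Phi η (C c) = Polynomial.C (C c) := (Phi η).commutes c
  rw [← Phi_one, ← Phi_one, map_mul, h1, Polynomial.coeff_C_mul]

end Pool.Agent.X328.NC.An
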