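import Mathlib
import Pool.Agent.X328.NC.An

/-! # The lemma AN: proof -/

set_option autoImplicit false

namespace Pool.Agent.X328.NC.An

open MvPolynomial

/-- the bilinear form with matrix `A` -/
noncomputable def P (A : Matrix (Fin 3) (Fin 3) R) (x y : Fin 3 → ℂ) : R :=
  ∑ i, ∑ j, C (x i) * A i j * C (y j)

lemma lin_sum (η : Fin 4 → ℂ) {ι : Type} (s : Finset ι) (F : ι → R) :
    lin η (∑ i ∈ s, F i) = ∑ i ∈ s, lin η (F i) := by
  rw [← Phi_one, map_sum, Polynomial.finsetSum_coeff]
  exact Finset.sum_congr rfl fun i _ => Phi_one η _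

lemma lin_P (η : Fin 4 → ℂ) (A : Matrix (Fin 3) (Fin 3) R) (x y : Fin 3 → ℂ) :
    lin η (P A x y) = ∑ i, ∑ j, C (x i) * lin η (A i j) * C (y j) := by
  unfold P
  rw [lin_sum]
  refine Finset.sum_congr rfl fun i _ => ?_
  rw [lin_sum]
  refine Finset.sum_congr rfl fun j _ => ?_
  rw [mul_assoc, lin_C_mul, mul_comm (A i j), lin_C_mul]
  ring

theorem an : Pool.Agent.Y201.C3.S_AN := by
  intro A hA η ⟨i1, j1, hij⟩ hminor hnon V hV
  by_contra hV0
  have hex : ∃ N, ¬ ∀ i, Polynomial.X ^ N ∣ Phi η (V i) := by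
    obtain ⟨i, hi⟩ : ∃ i, V i ≠ 0 := by
      by_contra h
      push Not at h
      exact hV0 (funext h)
    have hPi : Phi η (V i) ≠ 0 := fun h => hi (Phi_inj η (by rw [h, map_zero]))
    refine ⟨(Phi η (V i)).natDegree + 1, fun h => ?_⟩
    have := Polynomial.natDegree_le_of_dvd (h i) hPi
    rw [Polynomial.natDegree_X_pow] at this
    omega
  obtain ⟨m, hm1, hm2⟩ : ∃ m, (∀ i, Polynomial.X ^ m ∣ Phi η (V i)) ∧
      ¬ ∀ i, Polynomial.X ^ (m + 1) ∣ Phi η (V i) := by
    by_contra hcon
    push Not at hcon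
    obtain ⟨N, hN⟩ := hex
    apply hN
    clear hN
    induction N with
    | zero =>
      intro i
      rw [pow_zero]
      exact one_dvd _
    | succ N ih => exact hcon N ih
  choose W hW using hm1
  have hid : ∑ i, ∑ j, W i * Phi η (A i j) * W j = 0 := by
    have h1 := congrArg (Phi η) hV
    rw [map_zero, map_sum] at h1
    have h2 : (Polynomial.X ^ m * Polynomial.X ^ m : Polynomial R) *
        ∑ i, ∑ j, W i * Phi η (A i j) * W j = 0 := by
      rw [← h1, Finset.mul_sum]
      refine Finset.sum_congr rfl fun i _ => ?_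
      rw [Finset.mul_sum, map_sum]
      refine Finset.sum_congr rfl fun j _ => ?_
      rw [map_mul, map_mul, hW, hW]
      ring
    have h3 : (Polynomial.X ^ m * Polynomial.X ^ m : Polynomial R) ≠ 0 :=
      mul_ne_zero (pow_ne_zero _ Polynomial.X_ne_zero) (pow_ne_zero _ Polynomial.X_ne_zero)
    exact (mul_eq_zero.1 h2).resolve_left h3
  set w : Fin 3 → R := fun i => (W i).coeff 0 with hw
  set w' : Fin 3 → R := fun i => (W i).coeff 1 with hw'
  have hw0 : ∃ i, w i ≠ 0 := by
    by_contra h
    push Not at h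
    apply hm2
    intro i
    rw [hW, pow_succ]
    exact mul_dvd_mul_left _ (Polynomial.X_dvd_iff.2 (h i))
  set a : Fin 3 → Fin 3 → ℂ := fun i j => eval η (A i j) with ha
  have hsym : ∀ i j, a i j = a j i := fun i j => by
    rw [ha]
    simp only
    rw [hA.apply]
  have hc0 : ∑ i, ∑ j, w i * C (a i j) * w j = 0 := by
    have h1 := congrArg (fun p => Polynomial.coeff p 0) hid
    simp only [Polynomial.finsetSum_coeff, Polynomial.mul_coeff_zero, Polynomial.coeff_zero,
      Phi_zero] at h1
    exact h1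
  have hc1 : ∑ i, ∑ j, (w i * C (a i j) * w' j +
      (w i * lin η (A i j) + w' i * C (a i j)) * w j) = 0 := by
    have h1 := congrArg (fun p => Polynomial.coeff p 1) hid
    simp only [Polynomial.finsetSum_coeff, Polynomial.mul_coeff_one, Polynomial.mul_coeff_zero,
      Polynomial.coeff_zero, Phi_zero, Phi_one] at h1
    exact h1
  -- the rank one matrix
  have hk : a i1 i1 ≠ 0 := by
    intro h
    have h1 := hminor i1 j1 i1 j1
    change a i1 i1 * a j1 j1 = a i1 j1 * a j1 i1 at h1
    rw [h, zero_mul, hsym j1 i1] at h1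
    exact hij (mul_self_eq_zero.1 h1.symm)
  set k := a i1 i1 with hkd
  have hrk : ∀ i j, a i j * k = a i1 i * a i1 j := by
    intro i j
    have h1 := hminor i i1 j i1
    change a i j * a i1 i1 = a i i1 * a i1 j at h1
    rw [hkd, h1, hsym i i1]
  have hkC : (C k : R) ≠ 0 := by
    rw [Ne, C_eq_zero]
    exact hk
  have hl : ∑ j, C (a i1 j) * w j = 0 := by
    have h1 : (∑ j, C (a i1 j) * w j) * (∑ j, C (a i1 j) * w j) = 0 := by
      have h2 : (∑ j, C (a i1 j) * w j) * (∑ j, C (a i1 j) * w j) =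
          C k * ∑ i, ∑ j, w i * C (a i j) * w j := by
        rw [Finset.sum_mul_sum, Finset.mul_sum]
        refine Finset.sum_congr rfl fun i _ => ?_
        rw [Finset.mul_sum]
        refine Finset.sum_congr rfl fun j _ => ?_
        have h3 : (C (a i j) : R) * C k = C (a i1 i) * C (a i1 j) := by
          rw [← C_mul, ← C_mul, hrk]
        linear_combination (-(w i * w j)) * h3
      rw [h2, hc0, mul_zero]
    exact mul_self_eq_zero.1 h1
  have hker : ∀ i, ∑ j, C (a i j) * w j = 0 := by
    intro i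
    have h1 : C k * ∑ j, C (a i j) * w j = C (a i1 i) * ∑ j, C (a i1 j) * w j := by
      rw [Finset.mul_sum, Finset.mul_sum]
      refine Finset.sum_congr rfl fun j _ => ?_
      have h3 : (C (a i j) : R) * C k = C (a i1 i) * C (a i1 j) := by
        rw [← C_mul, ← C_mul, hrk]
      linear_combination (w j) * h3
    rw [hl, mul_zero] at h1
    exact (mul_eq_zero.1 h1).resolve_left hkC
  have hmain : ∑ i, ∑ j, w i * lin η (A i j) * w j = 0 := by
    have h1 : ∑ i, ∑ j, w i * C (a i j) * w' j = 0 := by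
      rw [Finset.sum_comm]
      refine Finset.sum_eq_zero fun j _ => ?_
      have h2 : ∑ i, w i * C (a i j) * w' j = (∑ i, C (a j i) * w i) * w' j := by
        rw [Finset.sum_mul]
        refine Finset.sum_congr rfl fun i _ => ?_
        rw [hsym j i]
        ring
      rw [h2, hker, zero_mul]
    have h2 : ∑ i, ∑ j, w' i * C (a i j) * w j = 0 := by
      refine Finset.sum_eq_zero fun i _ => ?_
      have h3 : ∑ j, w' i * C (a i j) * w j = w' i * ∑ j, C (a i j) * w j := by
        rw [Finset.mul_sum]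
        refine Finset.sum_congr rfl fun j _ => ?_
        ring
      rw [h3, hker, mul_zero]
    have h3 : ∑ i, ∑ j, (w i * C (a i j) * w' j +
        (w i * lin η (A i j) + w' i * C (a i j)) * w j) =
        ∑ i, ∑ j, w i * C (a i j) * w' j + ∑ i, ∑ j, w i * lin η (A i j) * w j +
          ∑ i, ∑ j, w' i * C (a i j) * w j := by
      rw [← Finset.sum_add_distrib, ← Finset.sum_add_distrib]
      refine Finset.sum_congr rfl fun i _ => ?_
      rw [← Finset.sum_add_distrib, ← Finset.sum_add_distrib]
      refine Finset.sum_congr rfl fun j _ => ?_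
      ring
    rw [h3, h1, h2, zero_add, add_zero] at hc1
    exact hc1
  -- a basis of the kernel
  set σ : Equiv.Perm (Fin 3) := Equiv.swap 0 i1 with hσ
  have hσ0 : σ 0 = i1 := Equiv.swap_apply_left 0 i1
  have h01 : σ 0 ≠ σ 1 := fun h => absurd (σ.injective h) (by decide)
  have h02 : σ 0 ≠ σ 2 := fun h => absurd (σ.injective h) (by decide)
  have h12 : σ 1 ≠ σ 2 := fun h => absurd (σ.injective h) (by decide)
  have hsum : ∀ {S : Type} [AddCommMonoid S] (F : Fin 3 → S),
      ∑ i, F i = F (σ 0) + F (σ 1) + F (σ 2) := by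
    intro S _ F
    rw [← Equiv.sum_comp σ, Fin.sum_univ_three]
  let u : ℂ → ℂ → Fin 3 → ℂ := fun s t i =>
    if i = σ 1 then s else if i = σ 2 then t else -(a i1 (σ 1) * s + a i1 (σ 2) * t) / k
  have hu1 : ∀ s t, u s t (σ 1) = s := fun s t => if_pos rfl
  have hu2 : ∀ s t, u s t (σ 2) = t := fun s t => by
    change (if σ 2 = σ 1 then s else _) = t
    rw [if_neg (Ne.symm h12), if_pos rfl]
  have hu0 : ∀ s t, u s t (σ 0) = -(a i1 (σ 1) * s + a i1 (σ 2) * t) / k := fun s t => by
    change (if σ 0 = σ 1 then s else _) = _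
    rw [if_neg h01, if_neg h02]
  have hlu : ∀ s t, ∑ j, a i1 j * u s t j = 0 := by
    intro s t
    rw [hsum, hu0, hu1, hu2, hσ0, ← hkd]
    field_simp
    ring
  have hku : ∀ s t i, ∑ j, a i j * u s t j = 0 := by
    intro s t i
    have h1 : k * ∑ j, a i j * u s t j = a i1 i * ∑ j, a i1 j * u s t j := by
      rw [Finset.mul_sum, Finset.mul_sum]
      refine Finset.sum_congr rfl fun j _ => ?_
      linear_combination (u s t j) * hrk i j
    rw [hlu, mul_zero] at h1
    exact (mul_eq_zero.1 h1).resolve_left hk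
  have hlinu : ∀ s t i, u s t i = s * u 1 0 i + t * u 0 1 i := by
    intro s t i
    have hi : i = σ 0 ∨ i = σ 1 ∨ i = σ 2 := by
      obtain ⟨l, rfl⟩ := σ.surjective i
      fin_cases l
      · exact Or.inl rfl
      · exact Or.inr (Or.inl rfl)
      · exact Or.inr (Or.inr rfl)
    rcases hi with hi | hi | hi
    · rw [hi, hu0, hu0, hu0]
      ring
    · rw [hi, hu1, hu1, hu1]
      ring
    · rw [hi, hu2, hu2, hu2]
      ring
  set x := u 1 0 with hx
  set y := u 0 1 with hy
  set f := w (σ 1) with hf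
  set g := w (σ 2) with hg
  have hwf : ∀ i, w i = f * C (x i) + g * C (y i) := by
    intro i
    have hi : i = σ 0 ∨ i = σ 1 ∨ i = σ 2 := by
      obtain ⟨l, rfl⟩ := σ.surjective i
      fin_cases l
      · exact Or.inl rfl
      · exact Or.inr (Or.inl rfl)
      · exact Or.inr (Or.inr rfl)
    rcases hi with hi | hi | hi
    · have h1 := hl
      rw [hsum] at h1
      rw [hσ0, ← hkd] at h1
      rw [hi, hx, hy, hu0, hu0, hσ0]
      apply mul_left_cancel₀ hkC
      have h2 : (C k : R) * C (-(a i1 (σ 1) * 1 + a i1 (σ 2) * 0) / k) = -C (a i1 (σ 1)) := by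
        rw [← C_mul, ← C_neg]
        congr 1
        field_simp
        ring
      have h3 : (C k : R) * C (-(a i1 (σ 1) * 0 + a i1 (σ 2) * 1) / k) = -C (a i1 (σ 2)) := by
        rw [← C_mul, ← C_neg]
        congr 1
        field_simp
        ring
      linear_combination h1 - f * h2 - g * h3
    · rw [hi, hx, hy, hu1, hu1, C_1, C_0]
      ring
    · rw [hi, hx, hy, hu2, hu2, C_1, C_0]
      ring
  have hP : ∀ s t, lin η (P A (u s t) (u s t)) = C (s ^ 2) * lin η (P A x x) +
      C (s * t) * lin η (P A x y + P A y x) + C (t ^ 2) * lin η (P A y y) := by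
    intro s t
    rw [lin_add, lin_P, lin_P, lin_P, lin_P, lin_P, ← Finset.sum_add_distrib, Finset.mul_sum,
      Finset.mul_sum, Finset.mul_sum, ← Finset.sum_add_distrib, ← Finset.sum_add_distrib]
    refine Finset.sum_congr rfl fun i _ => ?_
    rw [← Finset.sum_add_distrib, Finset.mul_sum,
      Finset.mul_sum, Finset.mul_sum, ← Finset.sum_add_distrib, ← Finset.sum_add_distrib]
    refine Finset.sum_congr rfl fun j _ => ?_
    rw [hlinu s t i, hlinu s t j, C_add, C_add, C_mul, C_mul, C_mul, C_mul, C_pow, C_mul, C_pow]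
    ring
  refine pencil (al := lin η (P A x x)) (be := lin η (P A x y + P A y x))
    (ga := lin η (P A y y)) (f := f) (g := g) (lin_degree' η _) (lin_degree η _)
    (lin_degree' η _) ?_ ?_ ?_
  · rw [← hmain, lin_add, lin_P, lin_P, lin_P, lin_P, ← Finset.sum_add_distrib, Finset.sum_mul,
      Finset.sum_mul, Finset.sum_mul, ← Finset.sum_add_distrib, ← Finset.sum_add_distrib]
    refine Finset.sum_congr rfl fun i _ => ?_
    rw [← Finset.sum_add_distrib, Finset.sum_mul,
      Finset.sum_mul, Finset.sum_mul, ← Finset.sum_add_distrib, ← Finset.sum_add_distrib]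
    refine Finset.sum_congr rfl fun j _ => ?_
    rw [hwf i, hwf j]
    ring
  · by_contra h
    push Not at h
    obtain ⟨i, hi⟩ := hw0
    apply hi
    rw [hwf i, h.1, h.2]
    ring
  · intro s t hst
    rw [← hP]
    apply lin_ne
    refine hnon (u s t) ?_ (hku s t)
    intro h0
    rcases hst with h | h
    · apply h
      rw [← hu1 s t, h0]
      rfl
    · apply h
      rw [← hu2 s t, h0]
      rfl

end Pool.Agent.X328.NC.An
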