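import Mathlib
import Pool.Agent.X328.NC.AnT
import Pool.Agent.Y201.C3.Core
import Pool.Agent.Y201.LI.Stm2

/-! # The lemma ANI2 -/

set_option autoImplicit false

namespace Pool.Agent.X328.NC.Ani

open MvPolynomial Pool.Agent.Y201.C3 Pool.Agent.Y201.LI

abbrev R := MvPolynomial (Fin 4) ℂ

lemma sym_zero (S : Fin 3 → Fin 3 → Fin 3 → ℂ) (h12 : ∀ i j k, S i j k = S j i k)
    (h23 : ∀ i j k, S i j k = S i k j) (h : ∀ i j k, i ≤ j → j ≤ k → S i j k = 0) :
    ∀ i j k, S i j k = 0 := by
  intro i j k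
  rcases le_total i j with h1 | h1 <;> rcases le_total j k with h2 | h2 <;>
    rcases le_total i k with h3 | h3
  · exact h _ _ _ h1 h2
  · exact h _ _ _ h1 h2
  · rw [h23]; exact h _ _ _ h3 h2
  · rw [h23, h12]; exact h _ _ _ h3 h1
  · rw [h12]; exact h _ _ _ h1 h3
  · rw [h12, h23]; exact h _ _ _ h2 h3
  · rw [h12, h23, h12]; exact h _ _ _ h2 h1
  · rw [h12, h23, h12]; exact h _ _ _ h2 h1

section
variable (T : Fin 6 → Fin 6 → Fin 6 → ℂ)

lemma pderiv_Bg (l : Fin 4) (x y z : Fin 6 → R) :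
    pderiv l (Bg T x y z) = Bg T (fun i => pderiv l (x i)) y z +
      Bg T x (fun i => pderiv l (y i)) z + Bg T x y (fun i => pderiv l (z i)) := by
  unfold Bg
  rw [map_sum, ← Finset.sum_add_distrib, ← Finset.sum_add_distrib]
  refine Finset.sum_congr rfl fun i _ => ?_
  rw [map_sum, ← Finset.sum_add_distrib, ← Finset.sum_add_distrib]
  refine Finset.sum_congr rfl fun j _ => ?_
  rw [map_sum, ← Finset.sum_add_distrib, ← Finset.sum_add_distrib]
  refine Finset.sum_congr rfl fun k _ => ?_
  rw [Derivation.leibniz, Derivation.leibniz, Derivation.leibniz, Derivation.map_algebraMap]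
  simp only [smul_eq_mul]
  ring

/-- evaluation of the trilinear form -/
lemma eval_Bg (η : Fin 4 → ℂ) (x y z : Fin 6 → R) :
    eval η (Bg T x y z) = Bg T (fun i => eval η (x i)) (fun i => eval η (y i))
      (fun i => eval η (z i)) := by
  have h := map_Bg (aeval η : R →ₐ[ℂ] ℂ) T x y z
  simpa [MvPolynomial.coe_aeval_eq_eval] using h

/-- the point `(0, 0, η)` -/
def yv (η : Fin 4 → ℂ) : Fin 6 → ℂ := ![0, 0, η 0, η 1, η 2, η 3]

lemma eval_yy (η : Fin 4 → ℂ) : (fun i => eval η (yy i)) = yv η := by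
  funext i
  unfold yy yv
  fin_cases i <;> simp

lemma eval_E (η : Fin 4 → ℂ) (a : Fin 6) : (fun i => eval η ((E a : Fin 6 → R) i)) = E a := by
  funext i
  unfold E
  by_cases h : i = a
  · subst h
    rw [Pi.single_eq_same, Pi.single_eq_same, map_one]
  · rw [Pi.single_eq_of_ne h, Pi.single_eq_of_ne h, map_zero]

lemma eval_cm (η : Fin 4 → ℂ) (i j : Fin 3) :
    eval η (cm T yy i j) = cm T (yv η) i j := by
  have hal : ∀ c : ℂ, eval η (algebraMap ℂ R c) = c := fun c => eval_C c
  have e3 : eval η (3 : R) = 3 := map_ofNat _ 3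
  unfold cm
  simp only [Bf_eq]
  fin_cases i <;> fin_cases j <;>
    simp [eval_Bg, eval_yy, eval_E, hal, e3]

lemma cm_symm {R' : Type} [CommRing R'] [Algebra ℂ R'] (y : Fin 6 → R') : (cm T y).IsSymm := by
  apply Matrix.IsSymm.ext
  intro i j
  unfold cm
  fin_cases i <;> fin_cases j <;> rfl

end

theorem ani2 (hETA : S_ETA) : S_ANI2 := by
  intro T hT hS hL hplane V hV
  have hTg : SymG T := hT
  have hA : (cm T yy : Matrix (Fin 3) (Fin 3) R).IsSymm := cm_symm T yy
  have hL3 : ∀ a b c : Fin 6, a.val < 2 → b.val < 2 → c.val < 2 →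
      Bg T (E a : Fin 6 → ℂ) (E b) (E c) = 0 := by
    intro a b c ha hb hc
    have h := hL a b c ha hb hc
    unfold Bg E
    rw [Finset.sum_eq_single a, Finset.sum_eq_single b, Finset.sum_eq_single c]
    · simp [h]
    · intro i _ hi; simp [hi]
    · simp
    · intro i _ hi; simp [hi]
    · simp
    · intro i _ hi; simp [hi]
    · simp
  have h0 : ∀ i j, eval 0 (cm T yy i j) = 0 := by
    intro i j
    have hy0 : yv 0 = fun _ => 0 := by
      funext i
      unfold yv
      fin_cases i <;> rfl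
    have hz3 : ∀ x y : Fin 6 → ℂ, Bg T x y (fun _ => 0) = 0 := by
      intro x y
      rw [swap13 hTg, Bg_zero1]
    rw [eval_cm, hy0]
    unfold cm
    simp only [Bf_eq]
    fin_cases i <;> fin_cases j <;> simp [hz3]
  obtain ⟨η, hη0, hminor⟩ := hETA (cm T yy) hA h0
  set y := yv η with hy
  have hy00 : y 0 = 0 := rfl
  have hy01 : y 1 = 0 := rfl
  have hyne : y ≠ 0 := by
    intro h
    apply hη0
    funext l
    fin_cases l
    · exact congrFun h 2
    · exact congrFun h 3
    · exact congrFun h 4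
    · exact congrFun h 5
  refine Pool.Agent.X328.NC.An.an (cm T yy) hA η ?_ hminor ?_ V hV
  · -- the matrix is not zero
    by_contra hcon
    push Not at hcon
    have hcm : ∀ i j, cm T y i j = 0 := fun i j => by rw [hy, ← eval_cm]; exact hcon i j
    have c00 := hcm 0 0
    have c01 := hcm 0 1
    have c02 := hcm 0 2
    have c11 := hcm 1 1
    have c12 := hcm 1 2
    have c22 := hcm 2 2
    have h3 : (3 : ℂ) ≠ 0 := by norm_num
    have h32 : (3 / 2 : ℂ) ≠ 0 := by norm_num
    have d00 : Bg T (E 0) (E 0) y = 0 := (mul_eq_zero.1 (show (3 : ℂ) * _ = 0 from c00)).resolve_left h3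
    have d01 : Bg T (E 0) (E 1) y = 0 := (mul_eq_zero.1 (show (3 : ℂ) * _ = 0 from c01)).resolve_left h3
    have d11 : Bg T (E 1) (E 1) y = 0 := (mul_eq_zero.1 (show (3 : ℂ) * _ = 0 from c11)).resolve_left h3
    have d02 : Bg T (E 0) y y = 0 := (mul_eq_zero.1 (show (3 / 2 : ℂ) * _ = 0 from c02)).resolve_left h32
    have d12 : Bg T (E 1) y y = 0 := (mul_eq_zero.1 (show (3 / 2 : ℂ) * _ = 0 from c12)).resolve_left h32
    have d22 : Bg T y y y = 0 := c22
    obtain ⟨i, j, k, hijk⟩ := hplane y hy00 hy01 hyne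
    apply hijk
    refine sym_zero (fun i j k => Bf T ((![E 0, E 1, y] : Fin 3 → Fin 6 → ℂ) i)
        ((![E 0, E 1, y] : Fin 3 → Fin 6 → ℂ) j) ((![E 0, E 1, y] : Fin 3 → Fin 6 → ℂ) k))
        (fun i j k => Bg_swap12 hTg _ _ _) (fun i j k => Bg_swap23 hTg _ _ _) ?_ i j k
    intro i j k h1 h2
    simp only [Bf_eq]
    have cs : ∀ l : Fin 3, l = 0 ∨ l = 1 ∨ l = 2 := by decide
    rcases cs i with rfl | rfl | rfl <;> rcases cs j with rfl | rfl | rfl <;>
      rcases cs k with rfl | rfl | rfl <;>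
      (try exact absurd h1 (by decide)) <;> (try exact absurd h2 (by decide))
    · exact hL3 0 0 0 (by decide) (by decide) (by decide)
    · exact hL3 0 0 1 (by decide) (by decide) (by decide)
    · exact d00
    · exact hL3 0 1 1 (by decide) (by decide) (by decide)
    · exact d01
    · exact d02
    · exact hL3 1 1 1 (by decide) (by decide) (by decide)
    · exact d11
    · exact d12
    · exact d22
  · -- the gradient
    intro u hu hker
    by_contra hcon
    push Not at hcon
    have hker' : ∀ i, ∑ j, cm T y i j * u j = 0 := by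
      intro i
      rw [← hker i]
      refine Finset.sum_congr rfl fun j _ => ?_
      rw [hy, ← eval_cm]
    have k0 := hker' 0
    have k1 := hker' 1
    have k2 := hker' 2
    rw [Fin.sum_univ_three] at k0 k1 k2
    have k0' : 3 * Bg T (E 0) (E 0) y * u 0 + 3 * Bg T (E 0) (E 1) y * u 1 +
      3 / 2 * Bg T (E 0) y y * u 2 = 0 := k0
    have k1' : 3 * Bg T (E 0) (E 1) y * u 0 + 3 * Bg T (E 1) (E 1) y * u 1 +
      3 / 2 * Bg T (E 1) y y * u 2 = 0 := k1
    -- the singular point
    set w : Fin 6 → ℂ := fun i => (u 0 * (E 0 : Fin 6 → ℂ) i + u 1 * (E 1 : Fin 6 → ℂ) i) + u 2 * y i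
      with hw
    have hww : ∀ z : Fin 6 → ℂ, Bg T z w w = u 0 * u 0 * Bg T z (E 0) (E 0) +
        2 * u 0 * u 1 * Bg T z (E 0) (E 1) + u 1 * u 1 * Bg T z (E 1) (E 1) +
        2 * u 2 * (u 0 * Bg T z (E 0) y + u 1 * Bg T z (E 1) y) + u 2 * u 2 * Bg T z y y := by
      intro z
      rw [hw, Bg_add2, Bg_add2, Bg_add3, Bg_add3, Bg_add3, Bg_add3, Bg_add3, Bg_add3]
      simp only [Bg_smul2, Bg_smul3]
      rw [Bg_swap23 hTg z (E 1) (E 0), Bg_swap23 hTg z y (E 0), Bg_swap23 hTg z y (E 1)]
      ring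
    have hw0 : Bg T (E 0) w w = 0 := by
      rw [hww, hL3 0 0 0 (by decide) (by decide) (by decide),
        hL3 0 0 1 (by decide) (by decide) (by decide),
        hL3 0 1 1 (by decide) (by decide) (by decide)]
      linear_combination (2 / 3 * u 2) * k0'
    have hw1 : Bg T (E 1) w w = 0 := by
      rw [hww, hL3 1 0 0 (by decide) (by decide) (by decide),
        hL3 1 0 1 (by decide) (by decide) (by decide),
        hL3 1 1 1 (by decide) (by decide) (by decide), Bg_swap12 hTg (E 1) (E 0) y]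
      linear_combination (2 / 3 * u 2) * k1'
    -- the derivatives
    have hq : (∑ i, ∑ j, C (u i) * cm T yy i j * C (u j) : R) =
        C (3 * (u 0 * u 0)) * Bg T (E 0) (E 0) yy + C (6 * (u 0 * u 1)) * Bg T (E 0) (E 1) yy +
        C (3 * (u 1 * u 1)) * Bg T (E 1) (E 1) yy + C (3 * (u 0 * u 2)) * Bg T (E 0) yy yy +
        C (3 * (u 1 * u 2)) * Bg T (E 1) yy yy + C (u 2 * u 2) * Bg T yy yy yy := by
      simp only [Fin.sum_univ_three]
      change C (u 0) * (3 * Bg T (E 0) (E 0) yy) * C (u 0) +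
        C (u 0) * (3 * Bg T (E 0) (E 1) yy) * C (u 1) +
        C (u 0) * (C (3 / 2) * Bg T (E 0) yy yy) * C (u 2) +
        (C (u 1) * (3 * Bg T (E 0) (E 1) yy) * C (u 0) +
        C (u 1) * (3 * Bg T (E 1) (E 1) yy) * C (u 1) +
        C (u 1) * (C (3 / 2) * Bg T (E 1) yy yy) * C (u 2)) +
        (C (u 2) * (C (3 / 2) * Bg T (E 0) yy yy) * C (u 0) +
        C (u 2) * (C (3 / 2) * Bg T (E 1) yy yy) * C (u 1) +
        C (u 2) * Bg T yy yy yy * C (u 2)) = _
      have e3 : (3 : R) = C 3 := (map_ofNat C 3).symm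
      have e32 : (C (3 / 2) : R) + C (3 / 2) = C 3 := by
        rw [← C_add]
        norm_num
      have e6 : (C 3 : R) + C 3 = C 6 := by
        rw [← C_add]
        norm_num
      rw [e3]
      simp only [C_mul]
      rw [← e6]
      linear_combination (C (u 0) * Bg T (E 0) yy yy * C (u 2) +
        C (u 1) * Bg T (E 1) yy yy * C (u 2)) * e32
    have hdE : ∀ (l : Fin 4) (a : Fin 6), (fun i => pderiv l ((E a : Fin 6 → R) i)) =
        fun _ => 0 := by
      intro l a
      funext i
      unfold E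
      by_cases h : i = a
      · subst h
        rw [Pi.single_eq_same]
        exact Derivation.map_one_eq_zero _
      · rw [Pi.single_eq_of_ne h, map_zero]
    have hdy : ∀ l : Fin 4, (fun i => pderiv l ((yy : Fin 6 → R) i)) =
        E (⟨l.val + 2, by omega⟩ : Fin 6) := by
      intro l
      funext i
      unfold yy E
      fin_cases l <;> fin_cases i <;> simp [pderiv_X, Pi.single_apply]
    have hz1 : ∀ (x z : Fin 6 → R), Bg T (fun _ => 0) x z = 0 := fun x z => Bg_zero1 T x z
    have hz2 : ∀ (x z : Fin 6 → R), Bg T x (fun _ => 0) z = 0 := by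
      intro x z
      rw [Bg_swap12 hTg, Bg_zero1]
    have hdl : ∀ l : Fin 4, Bg T (E (⟨l.val + 2, by omega⟩ : Fin 6)) w w = 0 := by
      intro l
      have h1 := hcon l
      have hd : pderiv l (∑ i, ∑ j, C (u i) * cm T yy i j * C (u j) : R) =
          C (3 * (u 0 * u 0)) * Bg T (E 0) (E 0) (E ⟨l.val + 2, by omega⟩) +
          C (6 * (u 0 * u 1)) * Bg T (E 0) (E 1) (E ⟨l.val + 2, by omega⟩) +
          C (3 * (u 1 * u 1)) * Bg T (E 1) (E 1) (E ⟨l.val + 2, by omega⟩) +
          C (3 * (u 0 * u 2)) * (Bg T (E 0) (E ⟨l.val + 2, by omega⟩) yy +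
            Bg T (E 0) yy (E ⟨l.val + 2, by omega⟩)) +
          C (3 * (u 1 * u 2)) * (Bg T (E 1) (E ⟨l.val + 2, by omega⟩) yy +
            Bg T (E 1) yy (E ⟨l.val + 2, by omega⟩)) +
          C (u 2 * u 2) * (Bg T (E ⟨l.val + 2, by omega⟩) yy yy +
            Bg T yy (E ⟨l.val + 2, by omega⟩) yy + Bg T yy yy (E ⟨l.val + 2, by omega⟩)) := by
        rw [hq]
        simp only [map_add, pderiv_C_mul, smul_eq_C_mul, pderiv_Bg, hdE, hdy, hz1, hz2, zero_add]
      rw [hd] at h1
      simp only [map_add, map_mul, eval_C, eval_Bg, eval_yy, eval_E] at h1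
      rw [← hy] at h1
      have hx := hww (E (⟨l.val + 2, by omega⟩ : Fin 6))
      set z : Fin 6 → ℂ := E (⟨l.val + 2, by omega⟩ : Fin 6) with hz
      rw [swap13 hTg (E 0) (E 0) z, swap13 hTg (E 0) (E 1) z, swap13 hTg (E 1) (E 1) z,
        Bg_swap12 hTg (E 0) z y, swap13 hTg (E 0) y z, Bg_swap23 hTg z y (E 0),
        Bg_swap12 hTg (E 1) z y, swap13 hTg (E 1) y z, Bg_swap23 hTg z y (E 1),
        Bg_swap12 hTg y z y, swap13 hTg y y z, Bg_swap23 hTg z (E 1) (E 0)] at h1
      rw [hx]
      linear_combination (1 / 3 : ℂ) * h1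
    have hall : ∀ i : Fin 6, Bg T (E i) w w = 0 := by
      intro i
      fin_cases i
      · exact hw0
      · exact hw1
      · exact hdl 0
      · exact hdl 1
      · exact hdl 2
      · exact hdl 3
    have hwz : w = 0 := by
      apply hS
      intro i
      have h : Bg T (E i) w w = ∑ j, ∑ k, T i j k * w j * w k := by
        unfold Bg E
        rw [Finset.sum_eq_single i]
        · refine Finset.sum_congr rfl fun j _ => Finset.sum_congr rfl fun k _ => ?_
          simp
        · intro i' _ hi'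
          simp [hi']
        · simp
      rw [← h]
      exact hall i
    apply hu
    have hw_0 : u 0 = 0 := by
      have := congrFun hwz 0
      simp only [hw, E] at this
      rw [hy00] at this
      simpa using this
    have hw_1 : u 1 = 0 := by
      have := congrFun hwz 1
      simp only [hw, E] at this
      rw [hy01] at this
      simpa using this
    have hw_2 : u 2 = 0 := by
      obtain ⟨i, hi⟩ : ∃ i, y i ≠ 0 := by
        by_contra h
        push Not at h
        exact hyne (funext h)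
      have := congrFun hwz i
      simp only [hw, hw_0, hw_1, zero_mul, zero_add] at this
      exact (mul_eq_zero.1 this).resolve_right hi
    funext i
    fin_cases i
    · exact hw_0
    · exact hw_1
    · exact hw_2

end Pool.Agent.X328.NC.Ani
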