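import Mathlib

/-! # Conjugate reciprocal polynomials -/

set_option autoImplicit false

namespace Pool.Agent.X328.NC.Conic

open Polynomial

section star
variable {F : Type} [Field F] (bar : F →+* F) (b : F)

/-- conjugate reciprocal polynomial -/
noncomputable def star (d : ℕ) (f : F[X]) : F[X] :=
  ∑ i ∈ Finset.range (d + 1), monomial (d - i) (bar (f.coeff i) * b ^ i)

lemma star_coeff (d : ℕ) (f : F[X]) (j : ℕ) (hj : j ≤ d) :
    (star bar b d f).coeff (d - j) = bar (f.coeff j) * b ^ j := by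
  unfold star
  rw [finsetSum_coeff, Finset.sum_eq_single j]
  · simp [coeff_monomial]
  · intro i hi hij
    rw [coeff_monomial, if_neg]
    rw [Finset.mem_range] at hi
    omega
  · intro h
    exact absurd (Finset.mem_range.2 (by omega)) h

lemma star_natDegree (d : ℕ) (f : F[X]) : (star bar b d f).natDegree ≤ d := by
  unfold star
  refine natDegree_sum_le_of_forall_le _ _ fun i _ => ?_
  exact (natDegree_monomial_le _).trans (Nat.sub_le _ _)

lemma star_star (hbar : ∀ x, bar (bar x) = x) (hb : bar b = b) {d : ℕ} {f : F[X]}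
    (hf : f.natDegree ≤ d) :
    star bar b d (star bar b d f) = C (b ^ d) * f := by
  ext k
  by_cases hk : k ≤ d
  · have h1 := star_coeff bar b d (star bar b d f) (d - k) (Nat.sub_le _ _)
    have h2 := star_coeff bar b d f k hk
    rw [Nat.sub_sub_self hk] at h1
    rw [h1, h2, map_mul, hbar, map_pow, hb, coeff_C_mul, mul_assoc, ← pow_add,
      Nat.add_sub_cancel' hk, mul_comm]
  · push Not at hk
    rw [coeff_C_mul, coeff_eq_zero_of_natDegree_lt (lt_of_le_of_lt hf hk), mul_zero,
      coeff_eq_zero_of_natDegree_lt (lt_of_le_of_lt (star_natDegree bar b d _) hk)]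

lemma star_smul (d : ℕ) (c : F) (f : F[X]) :
    star bar b d (C c * f) = C (bar c) * star bar b d f := by
  unfold star
  rw [Finset.mul_sum]
  refine Finset.sum_congr rfl fun i _ => ?_
  rw [coeff_C_mul, map_mul bar, C_mul_monomial, mul_assoc]

lemma star_ne_zero (hb0 : b ≠ 0) {d : ℕ} {f : F[X]} (hf : f.natDegree ≤ d) (h0 : f ≠ 0) :
    star bar b d f ≠ 0 := by
  intro h
  apply h0
  ext j
  rw [coeff_zero]
  by_cases hj : j ≤ d
  · have h2 := star_coeff bar b d f j hj
    rw [h, coeff_zero] at h2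
    have h3 := (mul_eq_zero.1 h2.symm).resolve_right (pow_ne_zero _ hb0)
    exact (map_eq_zero bar).1 h3
  · exact coeff_eq_zero_of_natDegree_lt (by omega)

/-- the key lemma -/
lemma key (hbar : ∀ x, bar (bar x) = x) (hb : bar b = b) (hb0 : b ≠ 0) {P Q : F[X]}
    (hP : P ≠ 0) (hQ : Q ≠ 0) (hco : IsCoprime P Q)
    (h : P * star bar b (max P.natDegree Q.natDegree) P =
      C b * Q * star bar b (max P.natDegree Q.natDegree) Q) :
    ∃ l : F, l ≠ 0 ∧ l * bar l * b = b ^ (max P.natDegree Q.natDegree) := by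
  set d := max P.natDegree Q.natDegree with hd
  have hPd : P.natDegree ≤ d := le_max_left _ _
  have hQd : Q.natDegree ≤ d := le_max_right _ _
  have h1 : P ∣ star bar b d Q := by
    have h2 : P ∣ (C b * Q) * star bar b d Q := ⟨_, h.symm⟩
    have hu : IsUnit (C b : F[X]) := isUnit_C.2 (isUnit_iff_ne_zero.2 hb0)
    have h3 : IsCoprime P (C b * Q) := (isCoprime_mul_unit_left_right hu _ _).2 hco
    exact h3.dvd_of_dvd_mul_left h2
  obtain ⟨A, hA⟩ := h1
  have h4 : star bar b d P = C b * Q * A := by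
    have h5 : P * star bar b d P = P * (C b * Q * A) := by
      rw [h, hA]
      ring
    exact mul_left_cancel₀ hP h5
  have hsP := star_ne_zero bar b hb0 hPd hP
  have hsQ := star_ne_zero bar b hb0 hQd hQ
  have hA0 : A ≠ 0 := by
    rintro rfl
    exact hsQ (by rw [hA, mul_zero])
  have hdeg : A.natDegree = 0 := by
    rcases max_choice P.natDegree Q.natDegree with h6 | h6
    · have h7 := star_natDegree bar b d Q
      rw [hA, natDegree_mul hP hA0] at h7
      omega
    · have h7 := star_natDegree bar b d P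
      rw [h4, natDegree_mul (mul_ne_zero (C_ne_zero.2 hb0) hQ) hA0, natDegree_C_mul hb0] at h7
      omega
  obtain ⟨l, rfl⟩ := natDegree_eq_zero.1 hdeg
  have hl : l ≠ 0 := fun h => hA0 (by rw [h, C_0])
  refine ⟨l, hl, ?_⟩
  have h8 : star bar b d (star bar b d Q) = C (b ^ d) * Q := star_star bar b hbar hb hQd
  rw [hA, mul_comm, star_smul, h4] at h8
  have h9 : C (bar l * (b * l)) * Q = C (b ^ d) * Q := by
    rw [← h8, map_mul, map_mul]
    ring
  have h10 := C_injective (mul_right_cancel₀ hQ h9)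
  rw [← h10]
  ring

end star

section tau
variable {F : Type} [Field F] (bar : F →+* F) (b : F)

/-- `X ↦ b / X` on polynomials -/
noncomputable def phi : F[X] →+* RatFunc F :=
  eval₂RingHom ((algebraMap F (RatFunc F)).comp bar) (algebraMap F (RatFunc F) b / RatFunc.X)

lemma star_phi {d : ℕ} {f : F[X]} (hf : f.natDegree ≤ d) :
    algebraMap F[X] (RatFunc F) (star bar b d f) = RatFunc.X ^ d * phi bar b f := by
  unfold star phi
  rw [coe_eval₂RingHom, eval₂_eq_sum_range' _ (Nat.lt_succ_of_le hf), map_sum, Finset.mul_sum]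
  refine Finset.sum_congr rfl fun i hi => ?_
  have hi' : i ≤ d := by
    have := Finset.mem_range.1 hi
    omega
  rw [← C_mul_X_pow_eq_monomial, map_mul, map_pow, RatFunc.algebraMap_X]
  have h1 : algebraMap F[X] (RatFunc F) (C (bar (f.coeff i) * b ^ i)) =
      algebraMap F (RatFunc F) (bar (f.coeff i)) * algebraMap F (RatFunc F) b ^ i := by
    rw [← map_pow, ← map_mul]
    rfl
  rw [h1, div_pow, RingHom.comp_apply]
  have h2 : (RatFunc.X : RatFunc F) ^ d = RatFunc.X ^ (d - i) * RatFunc.X ^ i := by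
    rw [← pow_add, Nat.sub_add_cancel hi']
  have h3 : (RatFunc.X : RatFunc F) ^ i ≠ 0 := pow_ne_zero _ RatFunc.X_ne_zero
  rw [h2]
  field_simp

lemma phi_ne_zero (hb0 : b ≠ 0) {f : F[X]} (hf : f ≠ 0) : phi bar b f ≠ 0 := by
  intro h
  have h1 := star_phi bar b (le_refl f.natDegree)
  rw [h, mul_zero] at h1
  exact star_ne_zero bar b hb0 le_rfl hf
    ((map_eq_zero_iff _ (RatFunc.algebraMap_injective F)).1 h1)

lemma phi_comap (hb0 : b ≠ 0) :
    nonZeroDivisors F[X] ≤ (nonZeroDivisors (RatFunc F)).comap (phi bar b) := by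
  intro f hf
  rw [Submonoid.mem_comap]
  exact mem_nonZeroDivisors_of_ne_zero (phi_ne_zero bar b hb0 (nonZeroDivisors.ne_zero hf))

/-- the semilinear endomorphism `X ↦ b / X` -/
noncomputable def tau (hb0 : b ≠ 0) : RatFunc F →+* RatFunc F :=
  RatFunc.liftRingHom (phi bar b) (phi_comap bar b hb0)

lemma tau_poly (hb0 : b ≠ 0) (f : F[X]) :
    tau bar b hb0 (algebraMap F[X] (RatFunc F) f) = phi bar b f :=
  RatFunc.liftRingHom_algebraMap _ _ _

lemma tau_X (hb0 : b ≠ 0) :
    tau bar b hb0 RatFunc.X = algebraMap F (RatFunc F) b / RatFunc.X := by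
  have h : (RatFunc.X : RatFunc F) = algebraMap F[X] (RatFunc F) X := (RatFunc.algebraMap_X).symm
  rw [show tau bar b hb0 RatFunc.X = phi bar b X by rw [h, tau_poly]]
  unfold phi
  rw [coe_eval₂RingHom, eval₂_X]

lemma tau_C (hb0 : b ≠ 0) (c : F) :
    tau bar b hb0 (algebraMap F (RatFunc F) c) = algebraMap F (RatFunc F) (bar c) := by
  have h1 : algebraMap F (RatFunc F) c = algebraMap F[X] (RatFunc F) (C c) := rfl
  rw [h1, tau_poly]
  unfold phi
  rw [coe_eval₂RingHom, eval₂_C]
  rfl

/-- **Odd degree.** -/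
theorem odd_degree (hbar : ∀ x, bar (bar x) = x) (hb : bar b = b) (hb0 : b ≠ 0)
    (hnorm : ∀ x : F, x * bar x ≠ b) (R : RatFunc F)
    (hR : R * tau bar b hb0 R = algebraMap F (RatFunc F) b) :
    Odd (max R.num.natDegree R.denom.natDegree) := by
  have hbF : algebraMap F (RatFunc F) b ≠ 0 := (_root_.map_ne_zero _).2 hb0
  have hR0 : R ≠ 0 := by
    rintro rfl
    rw [zero_mul] at hR
    exact hbF hR.symm
  have hP : R.num ≠ 0 := RatFunc.num_ne_zero hR0
  have hQ : R.denom ≠ 0 := RatFunc.denom_ne_zero R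
  set P := R.num with hPd
  set Q := R.denom with hQd
  have h1 : tau bar b hb0 R = phi bar b P / phi bar b Q := by
    conv_lhs => rw [← RatFunc.num_div_denom R]
    rw [map_div₀, tau_poly, tau_poly]
  set d := max P.natDegree Q.natDegree with hd
  have h2 := star_phi bar b (d := d) (f := P) (le_max_left _ _)
  have h3 := star_phi bar b (d := d) (f := Q) (le_max_right _ _)
  have hQF : algebraMap F[X] (RatFunc F) Q ≠ 0 := RatFunc.algebraMap_ne_zero hQ
  have hphQ := phi_ne_zero bar b hb0 hQ
  have h4 : P * star bar b d P = C b * Q * star bar b d Q := by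
    apply RatFunc.algebraMap_injective F
    rw [map_mul, map_mul, map_mul, h2, h3]
    have h5 : algebraMap F[X] (RatFunc F) P * phi bar b P =
        algebraMap F (RatFunc F) b * (algebraMap F[X] (RatFunc F) Q * phi bar b Q) := by
      rw [← hR, h1]
      conv_rhs => rw [← RatFunc.num_div_denom R]
      rw [← hPd, ← hQd]
      field_simp
    have h6 : algebraMap F[X] (RatFunc F) (C b) = algebraMap F (RatFunc F) b := rfl
    rw [h6]
    linear_combination (RatFunc.X ^ d) * h5
  obtain ⟨l, hl, h7⟩ := key bar b hbar hb hb0 hP hQ (RatFunc.isCoprime_num_denom R) h4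
  rw [← Nat.not_even_iff_odd]
  rintro ⟨e, he⟩
  apply hnorm (b ^ e / l)
  rw [← hd] at h7
  rw [he] at h7
  have hbl : bar l ≠ 0 := (_root_.map_ne_zero _).2 hl
  rw [map_div₀, map_pow, hb]
  rw [div_mul_div_comm, ← pow_add, ← h7]
  field_simp

end tau

end Pool.Agent.X328.NC.Conic
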