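import Mathlib
import Pool.Agent.X328.NC.Star

/-! # The function field of an anisotropic conic -/

set_option autoImplicit false

namespace Pool.Agent.X328.NC.Conic

open Polynomial IntermediateField

/-- quadratic extensions of subfields -/
lemma two {N : Type} [Field N] {A B : Subfield N} (h : A ≤ B) {s : N} (hsB : s ∈ B) (hsA : s ∉ A)
    (hss : s * s ∈ A) (hB : B ≤ Subfield.closure ((A : Set N) ∪ {s})) :
    Subfield.relfinrank A B = 2 := by
  rw [Subfield.relfinrank_eq_finrank_of_le h]
  have h1 : Subfield.extendScalars h = A⟮s⟯ := by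
    apply le_antisymm
    · intro z hz
      have hz' : z ∈ B := hz
      have h2 := hB hz'
      have h3 : Subfield.closure ((A : Set N) ∪ {s}) ≤ (A⟮s⟯).toSubfield := by
        rw [Subfield.closure_le]
        rintro y (hy | hy)
        · exact (A⟮s⟯).algebraMap_mem ⟨y, hy⟩
        · rw [Set.mem_singleton_iff.1 hy]
          exact mem_adjoin_simple_self A s
      exact h3 h2
    · rw [adjoin_simple_le_iff]
      exact hsB
  rw [h1]
  have hroot : aeval s (X ^ 2 - C (⟨s * s, hss⟩ : A)) = 0 := by
    rw [map_sub, map_pow, aeval_X, aeval_C]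
    change s ^ 2 - s * s = 0
    ring
  have hmon : (X ^ 2 - C (⟨s * s, hss⟩ : A)).Monic := monic_X_pow_sub_C _ two_ne_zero
  have hint : IsIntegral A s := ⟨_, hmon, by rw [← aeval_def]; exact hroot⟩
  rw [adjoin.finrank hint]
  apply le_antisymm
  · have h4 := natDegree_le_natDegree (minpoly.degree_le_of_ne_zero A s hmon.ne_zero hroot)
    rwa [natDegree_X_pow_sub_C] at h4
  · rw [minpoly.two_le_natDegree_iff hint]
    rintro ⟨y, hy⟩
    exact hsA (hy ▸ y.2)

variable {K M : Type} [Field K] [CharZero K] [Field M] [Algebra K M]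

section model
variable (a b : K) [Fact (∀ r : K, r ^ 2 ≠ a + 0 * r)]

/-- the quadratic extension -/
abbrev QF (a : K) : Type := QuadraticAlgebra K a 0

/-- the embedding of constants -/
noncomputable abbrev cst (a : K) [Fact (∀ r : K, r ^ 2 ≠ a + 0 * r)] : K →+* RatFunc (QF a) :=
  (algebraMap (QF a) (RatFunc (QF a))).comp (algebraMap K (QF a))

/-- the square root of `a` -/
noncomputable abbrev sq (a : K) [Fact (∀ r : K, r ^ 2 ≠ a + 0 * r)] : RatFunc (QF a) :=
  algebraMap (QF a) (RatFunc (QF a)) (QuadraticAlgebra.omega)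

lemma om_mul : (QuadraticAlgebra.omega : QF a) * QuadraticAlgebra.omega = algebraMap K (QF a) a := by
  rw [QuadraticAlgebra.omega_mul_omega_eq_mk]
  rfl

lemma sq_mul : sq a * sq a = cst a a := by
  unfold sq cst
  rw [← map_mul, om_mul]
  rfl

lemma elem (z : QF a) : z = algebraMap K (QF a) z.re + algebraMap K (QF a) z.im *
    QuadraticAlgebra.omega := by
  conv_lhs => rw [← QuadraticAlgebra.mk_eta z, QuadraticAlgebra.mk_eq_add_smul_omega]
  rw [Algebra.smul_def]

lemma bar_om : starRingEnd (QF a) QuadraticAlgebra.omega = -QuadraticAlgebra.omega := by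
  rw [starRingEnd_apply]
  ext <;> simp

lemma bar_K (c : K) : starRingEnd (QF a) (algebraMap K (QF a) c) = algebraMap K (QF a) c := by
  rw [starRingEnd_apply]
  have h : algebraMap K (QF a) c = ⟨c, 0⟩ := rfl
  rw [h]
  ext <;> simp

lemma bar_fix {z : QF a} (hz : starRingEnd (QF a) z = z) : ∃ c : K, z = algebraMap K (QF a) c := by
  refine ⟨z.re, ?_⟩
  have h1 : (Star.star z).im = z.im := by
    rw [starRingEnd_apply] at hz
    rw [hz]
  rw [QuadraticAlgebra.im_star] at h1
  have h2 : z.im = 0 := self_eq_neg.1 h1.symm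
  conv_lhs => rw [elem a z, h2]
  rw [map_zero, zero_mul, add_zero]

lemma norm_bar (z : QF a) : z * starRingEnd (QF a) z =
    algebraMap K (QF a) (z.re ^ 2 - a * z.im ^ 2) := by
  rw [starRingEnd_apply, ← QuadraticAlgebra.algebraMap_norm_eq_mul_star, QuadraticAlgebra.norm_def]
  congr 1
  ring

instance : CharZero (QF a) := charZero_of_injective_algebraMap (algebraMap K (QF a)).injective

instance : CharZero (RatFunc (QF a)) :=
  charZero_of_injective_algebraMap (algebraMap (QF a) (RatFunc (QF a))).injective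

/-- **The embedding of the function field.** -/
lemma exists_j (hna : ¬ Algebra.IsAlgebraic K M) {x0 y0 : M}
    (hx : x0 ^ 2 = algebraMap K M a * y0 ^ 2 + algebraMap K M b) (hb : b ≠ 0)
    (hgen : adjoin K {x0, y0} = ⊤) :
    ∃ j : M →+* RatFunc (QF a), (∀ c : K, j (algebraMap K M c) = cst a c) ∧
      j x0 + sq a * j y0 = RatFunc.X := by
  let Ω := AlgebraicClosure M
  obtain ⟨s, hs⟩ := IsAlgClosed.exists_eq_mul_self (algebraMap K Ω a)
  let i : QF a →ₐ[K] Ω := QuadraticAlgebra.lift ⟨s, by
    rw [← hs, zero_smul, add_zero, Algebra.smul_def, mul_one]⟩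
  have hi : i QuadraticAlgebra.omega = s := by
    simp [i]
  letI : Algebra (QF a) Ω := i.toRingHom.toAlgebra
  haveI : IsScalarTower K (QF a) Ω := IsScalarTower.of_algebraMap_eq fun c => (i.commutes c).symm
  set X0 : Ω := algebraMap M Ω x0 with hX0
  set Y0 : Ω := algebraMap M Ω y0 with hY0
  set u : Ω := X0 + s * Y0 with hu
  have hrel : X0 ^ 2 = algebraMap K Ω a * Y0 ^ 2 + algebraMap K Ω b := by
    have := congrArg (algebraMap M Ω) hx
    rw [map_add, map_mul, map_pow, map_pow, ← IsScalarTower.algebraMap_apply K M Ω,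
      ← IsScalarTower.algebraMap_apply K M Ω] at this
    exact this
  have hprod : u * (X0 - s * Y0) = algebraMap K Ω b := by
    rw [hu]
    have : (X0 + s * Y0) * (X0 - s * Y0) = X0 ^ 2 - (s * s) * Y0 ^ 2 := by ring
    rw [this, ← hs, hrel]
    ring
  have hbΩ : algebraMap K Ω b ≠ 0 := (_root_.map_ne_zero _).2 hb
  have hu0 : u ≠ 0 := by
    intro h
    rw [h, zero_mul] at hprod
    exact hbΩ hprod.symm
  have hs0 : s ≠ 0 := by
    rintro rfl
    rw [mul_zero] at hs
    have ha0 : a = 0 := (map_eq_zero _).1 hs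
    have := (Fact.out : ∀ r : K, r ^ 2 ≠ a + 0 * r) 0
    apply this
    rw [ha0]
    ring
  have hsalg : IsAlgebraic K s := by
    refine ⟨X ^ 2 - C a, (monic_X_pow_sub_C a two_ne_zero).ne_zero, ?_⟩
    rw [map_sub, map_pow, aeval_X, aeval_C, hs]
    ring
  haveI : CharZero Ω := charZero_of_injective_algebraMap (algebraMap K Ω).injective
  have h2 : (2 : Ω) ≠ 0 := two_ne_zero
  -- `u` is transcendental
  have hXu : X0 = (u + algebraMap K Ω b / u) / 2 := by
    rw [← hprod, mul_div_cancel_left₀ _ hu0, hu, eq_div_iff h2]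
    ring
  have hYu : Y0 = (u - algebraMap K Ω b / u) / (2 * s) := by
    rw [← hprod, mul_div_cancel_left₀ _ hu0, hu, eq_div_iff (mul_ne_zero h2 hs0)]
    ring
  have hutr : Transcendental (QF a) u := by
    intro hal
    have hal' : IsAlgebraic K u := IsAlgebraic.restrictScalars K hal
    apply hna
    have hbal : IsAlgebraic K (algebraMap K Ω b) := isAlgebraic_algebraMap b
    have h2al : IsAlgebraic K (2 : Ω) := by
      have := isAlgebraic_algebraMap (R := K) (A := Ω) (2 : K)
      rwa [map_ofNat] at this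
    have hx1 : IsAlgebraic K X0 := by
      rw [hXu, div_eq_mul_inv, div_eq_mul_inv]
      exact (hal'.add (hbal.mul hal'.inv)).mul h2al.inv
    have hy1 : IsAlgebraic K Y0 := by
      rw [hYu, div_eq_mul_inv, div_eq_mul_inv]
      exact (hal'.sub (hbal.mul hal'.inv)).mul (h2al.mul hsalg).inv
    have hx2 : IsAlgebraic K x0 :=
      (isAlgebraic_algebraMap_iff (algebraMap M Ω).injective).1 hx1
    have hy2 : IsAlgebraic K y0 :=
      (isAlgebraic_algebraMap_iff (algebraMap M Ω).injective).1 hy1
    have h5 : Algebra.IsAlgebraic K (adjoin K ({x0, y0} : Set M)) := by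
      apply isAlgebraic_adjoin
      intro z hz
      rcases hz with rfl | hz
      · exact hx2.isIntegral
      · rw [Set.mem_singleton_iff.1 hz]
        exact hy2.isIntegral
    rw [hgen] at h5
    exact (IntermediateField.topEquiv (F := K) (E := M)).isAlgebraic
  -- the map `ψ`
  have hinj : Function.Injective (aeval u : (QF a)[X] →ₐ[QF a] Ω) :=
    transcendental_iff_injective.1 hutr
  have hcomap : nonZeroDivisors (QF a)[X] ≤ (nonZeroDivisors Ω).comap
      ((aeval u : (QF a)[X] →ₐ[QF a] Ω) : (QF a)[X] →+* Ω) := by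
    intro f hf
    rw [Submonoid.mem_comap]
    exact mem_nonZeroDivisors_of_ne_zero fun h => nonZeroDivisors.ne_zero hf
      (hinj (by rw [map_zero]; exact h))
  let ψ : RatFunc (QF a) →+* Ω := RatFunc.liftRingHom _ hcomap
  have hψC : ∀ c : QF a, ψ (algebraMap _ _ c) = i c := by
    intro c
    have h1 : algebraMap (QF a) (RatFunc (QF a)) c = algebraMap (QF a)[X] _ (C c) := rfl
    rw [h1]
    change RatFunc.liftRingHom _ hcomap _ = _
    rw [RatFunc.liftRingHom_algebraMap]
    change aeval u (C c) = _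
    rw [aeval_C]
    rfl
  have hψX : ψ RatFunc.X = u := by
    rw [← RatFunc.algebraMap_X]
    change RatFunc.liftRingHom _ hcomap _ = _
    rw [RatFunc.liftRingHom_algebraMap]
    change aeval u X = _
    rw [aeval_X]
  have hψK : ∀ c : K, ψ (cst a c) = algebraMap K Ω c := by
    intro c
    change ψ (algebraMap _ _ (algebraMap K (QF a) c)) = _
    rw [hψC]
    exact i.commutes c
  have hψs : ψ (sq a) = s := by
    change ψ (algebraMap _ _ _) = _
    rw [hψC, hi]
  have hψ2 : ψ 2 = 2 := map_ofNat ψ 2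
  have hxr : X0 ∈ ψ.fieldRange := ⟨(RatFunc.X + cst a b / RatFunc.X) / 2, by
    rw [map_div₀, map_add, map_div₀, hψX, hψK, hψ2, hXu]⟩
  have hyr : Y0 ∈ ψ.fieldRange := ⟨(RatFunc.X - cst a b / RatFunc.X) / (2 * sq a), by
    rw [map_div₀, map_sub, map_div₀, map_mul, hψX, hψK, hψ2, hψs, hYu]⟩
  have hall : ∀ m : M, algebraMap M Ω m ∈ ψ.fieldRange := by
    intro m
    have h6 : (⊤ : IntermediateField K M).toSubfield ≤ ψ.fieldRange.comap (algebraMap M Ω) := by
      rw [← hgen]
      change Subfield.closure _ ≤ _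
      rw [Subfield.closure_le]
      rintro z (⟨c, rfl⟩ | hz)
      · exact ⟨cst a c, by rw [hψK, ← IsScalarTower.algebraMap_apply]⟩
      · rcases hz with rfl | hz
        · exact hxr
        · rw [Set.mem_singleton_iff.1 hz]
          exact hyr
    exact h6 (show m ∈ (⊤ : IntermediateField K M) from mem_top)
  let e : RatFunc (QF a) ≃+* ψ.fieldRange :=
    RingEquiv.ofBijective ψ.rangeRestrictField
      ⟨ψ.rangeRestrictField.injective, fun ⟨y, z, hz⟩ => ⟨z, Subtype.ext hz⟩⟩
  have he : ∀ z, ((e z : ψ.fieldRange) : Ω) = ψ z := fun z => rfl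
  let j : M →+* RatFunc (QF a) := (e.symm : ψ.fieldRange →+* RatFunc (QF a)).comp
    ((algebraMap M Ω).codRestrict ψ.fieldRange hall)
  have hj : ∀ m : M, ψ (j m) = algebraMap M Ω m := by
    intro m
    rw [← he]
    change ((e (e.symm _) : ψ.fieldRange) : Ω) = _
    rw [RingEquiv.apply_symm_apply]
    rfl
  refine ⟨j, fun c => ?_, ?_⟩
  · apply ψ.injective
    rw [hj, hψK, ← IsScalarTower.algebraMap_apply]
  · apply ψ.injective
    rw [map_add, map_mul, hj, hj, hψs, hψX]

end model

end Pool.Agent.X328.NC.Conic
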