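import Mathlib
import Pool.Agent.X328.NC.Model
import Pool.Agent.Y201.C3.Stm

/-! # Maps between conics have odd degree -/

set_option autoImplicit false

namespace Pool.Agent.X328.NC.Conic

open Polynomial IntermediateField

variable {K M : Type} [Field K] [CharZero K] [Field M] [Algebra K M]

section core
variable (a b : K) [Fact (∀ r : K, r ^ 2 ≠ a + 0 * r)] (hb : b ≠ 0)

include hb in
lemma hbF : algebraMap K (QF a) b ≠ 0 := (_root_.map_ne_zero _).2 hb

/-- the involution -/
noncomputable abbrev tt : RatFunc (QF a) →+* RatFunc (QF a) :=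
  tau (starRingEnd (QF a)) (algebraMap K (QF a) b) (hbF a b hb)

lemma sq_ne : sq a ≠ 0 := by
  intro h
  have h1 := sq_mul (a := a)
  rw [h, zero_mul] at h1
  have ha0 : a = 0 := (map_eq_zero _).1 h1.symm
  have := (Fact.out : ∀ r : K, r ^ 2 ≠ a + 0 * r) 0
  apply this
  rw [ha0]
  ring

lemma tt_sq : tt a b hb (sq a) = -sq a := by
  unfold tt sq
  rw [tau_C, bar_om, map_neg]

lemma tt_cst (c : K) : tt a b hb (cst a c) = cst a c := by
  unfold tt
  change tau _ _ _ (algebraMap (QF a) _ (algebraMap K (QF a) c)) = _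
  rw [tau_C, bar_K]
  rfl

lemma tt_X : tt a b hb RatFunc.X = cst a b / RatFunc.X := tau_X _ _ _

variable {x0 y0 : M} (hx : x0 ^ 2 = algebraMap K M a * y0 ^ 2 + algebraMap K M b)
  {j : M →+* RatFunc (QF a)} (hjc : ∀ c : K, j (algebraMap K M c) = cst a c)

include hx hjc in
lemma jprod : (j x0 + sq a * j y0) * (j x0 - sq a * j y0) = cst a b := by
  have h1 := congrArg j hx
  rw [map_add, map_mul, map_pow, map_pow, hjc, hjc] at h1
  have h2 : (j x0 + sq a * j y0) * (j x0 - sq a * j y0) =
    j x0 ^ 2 - (sq a * sq a) * j y0 ^ 2 := by ring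
  rw [h2, sq_mul, h1]
  ring

include hx hjc in
lemma tt_j (hgen : adjoin K {x0, y0} = ⊤) (hjX : j x0 + sq a * j y0 = RatFunc.X) (m : M) :
    tt a b hb (j m) = j m := by
  have hX0 : (RatFunc.X : RatFunc (QF a)) ≠ 0 := RatFunc.X_ne_zero
  have h1 : j x0 - sq a * j y0 = cst a b / RatFunc.X := by
    rw [eq_div_iff hX0, ← jprod a b hx hjc, hjX, mul_comm]
  have h2 : tt a b hb (cst a b / RatFunc.X) = RatFunc.X := by
    rw [map_div₀, tt_cst, tt_X, div_div_cancel₀]
    exact (_root_.map_ne_zero _).2 hb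
  have htwo : (2 : RatFunc (QF a)) ≠ 0 := two_ne_zero
  have hxx : tt a b hb (j x0) = j x0 := by
    have h3 : 2 * j x0 = RatFunc.X + cst a b / RatFunc.X := by
      rw [← h1, ← hjX]
      ring
    have h4 := congrArg (tt a b hb) h3
    rw [map_mul, map_add, h2, tt_X, map_ofNat, add_comm, ← h3] at h4
    exact mul_left_cancel₀ htwo h4
  have hyy : tt a b hb (j y0) = j y0 := by
    have h3 : 2 * (sq a * j y0) = RatFunc.X - cst a b / RatFunc.X := by
      rw [← h1, ← hjX]
      ring
    have h4 := congrArg (tt a b hb) h3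
    rw [map_mul, map_mul, map_sub, h2, tt_X, map_ofNat, tt_sq] at h4
    have h5 : 2 * sq a * tt a b hb (j y0) = 2 * sq a * j y0 := by
      linear_combination (-1 : RatFunc (QF a)) * h4 - h3
    exact mul_left_cancel₀ (mul_ne_zero htwo (sq_ne a)) h5
  have h6 : (⊤ : IntermediateField K M).toSubfield ≤
      RingHom.eqLocusField ((tt a b hb).comp j) j := by
    rw [← hgen]
    change Subfield.closure _ ≤ _
    rw [Subfield.closure_le]
    rintro z (⟨c, rfl⟩ | hz)
    · change tt a b hb (j (algebraMap K M c)) = j (algebraMap K M c)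
      rw [hjc, tt_cst]
    · rcases hz with rfl | hz
      · exact hxx
      · rw [Set.mem_singleton_iff.1 hz]
        exact hyy
  exact h6 (show m ∈ (⊤ : IntermediateField K M) from mem_top)

include hb hx hjc in
theorem constants (hgen : adjoin K {x0, y0} = ⊤) (hjX : j x0 + sq a * j y0 = RatFunc.X)
    (z : M) (hz : IsAlgebraic K z) : ∃ c : K, z = algebraMap K M c := by
  obtain ⟨p, hp, hpz⟩ := hz
  have h1 : ∃ c, j z = RatFunc.C c := by
    by_contra hcon
    refine (RatFunc.transcendental_of_ne_C (j z) hcon) ⟨p.map (algebraMap K (QF a)), ?_, ?_⟩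
    · exact (Polynomial.map_ne_zero_iff (algebraMap K (QF a)).injective).2 hp
    · rw [aeval_def, eval₂_map]
      have h2 := congrArg j hpz
      rw [map_zero, aeval_def, hom_eval₂] at h2
      rw [← h2]
      congr 1
      ext c
      exact (hjc c).symm
  obtain ⟨c, hc⟩ := h1
  have h3 := tt_j a b hb hx hjc hgen hjX z
  rw [hc] at h3
  have h4 : tt a b hb (RatFunc.C c) = RatFunc.C (starRingEnd (QF a) c) := tau_C _ _ _ c
  rw [h4] at h3
  obtain ⟨c', hc'⟩ := bar_fix a (RatFunc.C_injective h3)
  refine ⟨c', j.injective ?_⟩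
  rw [hc, hjc, hc']
  rfl

include hb hx hjc in
theorem odd_core (hgen : adjoin K {x0, y0} = ⊤) (hjX : j x0 + sq a * j y0 = RatFunc.X)
    (hnorm : ∀ x y : K, x ^ 2 - a * y ^ 2 ≠ b)
    {x1 y1 : M} (hx1 : x1 ^ 2 = algebraMap K M a * y1 ^ 2 + algebraMap K M b) :
    Odd (Module.finrank (adjoin K ({x1, y1} : Set M)) M) := by
  have htj := tt_j a b hb hx hjc hgen hjX
  have hbc : cst a b ≠ 0 := (_root_.map_ne_zero _).2 hb
  set R : RatFunc (QF a) := j x1 + sq a * j y1 with hR
  have hRR := jprod a b hx1 hjc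
  rw [← hR] at hRR
  have hR0 : R ≠ 0 := by
    intro h
    rw [h, zero_mul] at hRR
    exact hbc hRR.symm
  have htR : tt a b hb R = j x1 - sq a * j y1 := by
    rw [hR, map_add, map_mul, htj, htj, tt_sq]
    ring
  have hodd := odd_degree (starRingEnd (QF a)) (algebraMap K (QF a) b)
    (fun x => by rw [starRingEnd_apply, starRingEnd_apply, _root_.star_star]) (bar_K a b) (hbF a b hb)
    (fun x hxx => by
      rw [norm_bar] at hxx
      exact hnorm _ _ ((algebraMap K (QF a)).injective hxx)) R (by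
        have : tau (starRingEnd (QF a)) (algebraMap K (QF a) b) (hbF a b hb) R =
          j x1 - sq a * j y1 := htR
        rw [this, hRR]
        rfl)
  have hfr := RatFunc.finrank_eq_max_natDegree R
  -- subfields
  set E1 := adjoin K ({x1, y1} : Set M) with hE1
  set SE : Subfield (RatFunc (QF a)) := E1.toSubfield.map j with hSE
  set SM : Subfield (RatFunc (QF a)) := (⊤ : Subfield M).map j with hSM
  set SR : Subfield (RatFunc (QF a)) := ((QF a)⟮R⟯).toSubfield with hSR
  have hEM : SE ≤ SM := by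
    rintro _ ⟨m, _, rfl⟩
    exact ⟨m, Subfield.mem_top _, rfl⟩
  have hFR : ∀ c : QF a, algebraMap (QF a) (RatFunc (QF a)) c ∈ SR :=
    fun c => ((QF a)⟮R⟯).algebraMap_mem c
  have hRR' : R ∈ SR := mem_adjoin_simple_self (QF a) R
  have htwo : (2 : RatFunc (QF a)) ≠ 0 := two_ne_zero
  have h2R : (2 : RatFunc (QF a)) ∈ SR := by
    have := natCast_mem SR 2
    exact_mod_cast this
  have hbR : j x1 - sq a * j y1 = cst a b / R := by
    rw [eq_div_iff hR0, mul_comm]
    exact hRR
  have hx1R : j x1 ∈ SR := by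
    have h1 : j x1 = (R + cst a b / R) / 2 := by
      rw [← hbR, hR, eq_div_iff htwo]
      ring
    rw [h1]
    exact SR.div_mem (SR.add_mem hRR' (SR.div_mem (hFR _) hRR')) h2R
  have hy1R : j y1 ∈ SR := by
    have h1 : j y1 = (R - cst a b / R) / (2 * sq a) := by
      rw [← hbR, hR, eq_div_iff (mul_ne_zero htwo (sq_ne a))]
      ring
    rw [h1]
    exact SR.div_mem (SR.sub_mem hRR' (SR.div_mem (hFR _) hRR')) (SR.mul_mem h2R (hFR _))
  have hER : SE ≤ SR := by
    rw [hSE, Subfield.map_le_iff_le_comap]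
    change Subfield.closure _ ≤ _
    rw [Subfield.closure_le]
    rintro z (⟨c, rfl⟩ | hz)
    · change j (algebraMap K M c) ∈ SR
      rw [hjc]
      exact hFR _
    · rcases hz with rfl | hz
      · exact hx1R
      · rw [Set.mem_singleton_iff.1 hz]
        exact hy1R
  have hsM : sq a ∉ SM := by
    rintro ⟨m, _, hm⟩
    have h1 := htj m
    rw [hm, tt_sq] at h1
    exact sq_ne a (neg_eq_self.1 h1)
  have hcM : ∀ c : K, cst a c ∈ SE := fun c =>
    ⟨algebraMap K M c, E1.algebraMap_mem c, hjc c⟩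
  have hconst : ∀ (A : Subfield (RatFunc (QF a))), (∀ c : K, cst a c ∈ A) → sq a ∈ A →
      ∀ c : QF a, algebraMap (QF a) (RatFunc (QF a)) c ∈ A := by
    intro A h1 h2 c
    rw [elem a c, map_add, map_mul]
    exact A.add_mem (h1 _) (A.mul_mem (h1 _) h2)
  have hM2 : Subfield.relfinrank SM ⊤ = 2 := by
    refine two le_top (s := sq a) (Subfield.mem_top _) hsM ?_ ?_
    · rw [sq_mul]
      exact hEM (hcM a)
    · have h1 : (⊤ : Subfield (RatFunc (QF a))) =
          ((QF a)⟮(RatFunc.X : RatFunc (QF a))⟯).toSubfield := by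
        rw [RatFunc.adjoin_X]
        rfl
      rw [h1]
      change Subfield.closure _ ≤ _
      rw [Subfield.closure_le]
      have hs : sq a ∈ Subfield.closure ((SM : Set (RatFunc (QF a))) ∪ {sq a}) :=
        Subfield.subset_closure (Or.inr rfl)
      have hMm : ∀ m : M, j m ∈ Subfield.closure ((SM : Set (RatFunc (QF a))) ∪ {sq a}) :=
        fun m => Subfield.subset_closure (Or.inl ⟨m, Subfield.mem_top _, rfl⟩)
      rintro z (⟨c, rfl⟩ | hz)
      · exact hconst _ (fun c => by rw [← hjc]; exact hMm _) hs c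
      · rw [Set.mem_singleton_iff.1 hz, ← hjX]
        exact add_mem (hMm _) (mul_mem hs (hMm _))
  have hR2 : Subfield.relfinrank SE SR = 2 := by
    refine two hER (s := sq a) (hFR _) (fun h => hsM (hEM h)) ?_ ?_
    · rw [sq_mul]
      exact hcM a
    · rw [hSR]
      change Subfield.closure _ ≤ _
      rw [Subfield.closure_le]
      have hs : sq a ∈ Subfield.closure ((SE : Set (RatFunc (QF a))) ∪ {sq a}) :=
        Subfield.subset_closure (Or.inr rfl)
      have hMm : ∀ m ∈ E1, j m ∈ Subfield.closure ((SE : Set (RatFunc (QF a))) ∪ {sq a}) :=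
        fun m hm => Subfield.subset_closure (Or.inl ⟨m, hm, rfl⟩)
      rintro z (⟨c, rfl⟩ | hz)
      · exact hconst _ (fun c => by
          rw [← hjc]
          exact hMm _ (E1.algebraMap_mem c)) hs c
      · rw [Set.mem_singleton_iff.1 hz, hR]
        exact add_mem (hMm _ (subset_adjoin _ _ (Or.inl rfl)))
          (mul_mem hs (hMm _ (subset_adjoin _ _ (Or.inr rfl))))
  have h1 := Subfield.relfinrank_mul_relfinrank hEM (le_top : SM ≤ ⊤)
  have h2 := Subfield.relfinrank_mul_relfinrank hER (le_top : SR ≤ ⊤)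
  rw [hM2] at h1
  rw [hR2] at h2
  have h3 : Subfield.relfinrank SR ⊤ = max R.num.natDegree R.denom.natDegree := by
    rw [← hfr]
    exact Subfield.relfinrank_top_right SR
  have h4 : Subfield.relfinrank SE SM = Module.finrank E1 M := by
    rw [hSE, hSM, Subfield.relfinrank_map_map]
    exact Subfield.relfinrank_top_right E1.toSubfield
  rw [← h4]
  have h5 : Subfield.relfinrank SE SM = max R.num.natDegree R.denom.natDegree := by
    rw [← h3]
    omega
  rw [h5]
  exact hodd

end core

end Pool.Agent.X328.NC.Conic
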