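import Mathlib
import Pool.Agent.X328.NC.Conic

/-! # The lemma CONIC -/

set_option autoImplicit false

namespace Pool.Agent.X328.NC.Conic

open Polynomial IntermediateField

variable {K M : Type} [Field K] [CharZero K] [Field M] [Algebra K M]

lemma ratio_eq (c1 c2 c3 : K) (v : Fin 3 → M) (h2 : v 2 ≠ 0) :
    adjoin K {z : M | ∃ i j, z = v i / v j} =
      adjoin K {(v 0 + algebraMap K M c1 * v 1 + algebraMap K M c2 * v 2) / v 2,
        (v 1 + algebraMap K M c3 * v 2) / v 2} := by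
  set x := (v 0 + algebraMap K M c1 * v 1 + algebraMap K M c2 * v 2) / v 2 with hx
  set y := (v 1 + algebraMap K M c3 * v 2) / v 2 with hy
  apply le_antisymm
  · rw [adjoin_le_iff]
    have hx' : x ∈ adjoin K {x, y} := subset_adjoin _ _ (Or.inl rfl)
    have hy' : y ∈ adjoin K {x, y} := subset_adjoin _ _ (Or.inr rfl)
    have h1 : v 1 / v 2 ∈ adjoin K {x, y} := by
      have : v 1 / v 2 = y - algebraMap K M c3 := by
        rw [hy]
        field_simp
        ring
      rw [this]
      exact sub_mem hy' (_root_.algebraMap_mem _ _)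
    have h0 : v 0 / v 2 ∈ adjoin K {x, y} := by
      have : v 0 / v 2 = x - algebraMap K M c1 * (v 1 / v 2) - algebraMap K M c2 := by
        rw [hx]
        field_simp
        ring
      rw [this]
      exact sub_mem (sub_mem hx' (mul_mem (_root_.algebraMap_mem _ _) h1)) (_root_.algebraMap_mem _ _)
    have hall : ∀ i, v i / v 2 ∈ adjoin K {x, y} := by
      intro i
      fin_cases i
      · exact h0
      · exact h1
      · change v 2 / v 2 ∈ _
        rw [div_self h2]
        exact one_mem _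
    rintro z ⟨i, j, rfl⟩
    have h3 : v i / v j = (v i / v 2) / (v j / v 2) := by
      rw [div_div_div_cancel_right₀ h2]
    rw [h3]
    exact div_mem (hall i) (hall j)
  · rw [adjoin_le_iff]
    have h0 : v 0 / v 2 ∈ adjoin K {z : M | ∃ i j, z = v i / v j} :=
      subset_adjoin _ _ ⟨0, 2, rfl⟩
    have h1 : v 1 / v 2 ∈ adjoin K {z : M | ∃ i j, z = v i / v j} :=
      subset_adjoin _ _ ⟨1, 2, rfl⟩
    rintro z (hz | hz)
    · rw [hz]
      have : x = v 0 / v 2 + algebraMap K M c1 * (v 1 / v 2) + algebraMap K M c2 := by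
        rw [hx]
        field_simp
      rw [this]
      exact add_mem (add_mem h0 (mul_mem (_root_.algebraMap_mem _ _) h1)) (_root_.algebraMap_mem _ _)
    · rw [Set.mem_singleton_iff.1 hz]
      have : y = v 1 / v 2 + algebraMap K M c3 := by
        rw [hy]
        field_simp
      rw [this]
      exact add_mem h1 (_root_.algebraMap_mem _ _)

/-- the diagonal form -/
lemma diag {A : Matrix (Fin 3) (Fin 3) K} (hA : A.IsSymm) {al be ga de c1 c2 c3 : K}
    (hal : al = A 0 0) (hal0 : al ≠ 0) (hc1 : c1 = A 0 1 / al) (hc2 : c2 = A 0 2 / al)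
    (hbe : be = A 1 1 - A 0 1 ^ 2 / al) (hbe0 : be ≠ 0)
    (hga : ga = A 1 2 - A 0 1 * A 0 2 / al) (hc3 : c3 = ga / be)
    (hde : de = A 2 2 - A 0 2 ^ 2 / al - ga ^ 2 / be) (w : Fin 3 → M) :
    ∑ i, ∑ j, w i * algebraMap K M (A i j) * w j =
      algebraMap K M al * (w 0 + algebraMap K M c1 * w 1 + algebraMap K M c2 * w 2) ^ 2 +
      algebraMap K M be * (w 1 + algebraMap K M c3 * w 2) ^ 2 + algebraMap K M de * w 2 ^ 2 := by
  have h10 : A 1 0 = A 0 1 := hA.apply 0 1
  have h20 : A 2 0 = A 0 2 := hA.apply 0 2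
  have h21 : A 2 1 = A 1 2 := hA.apply 1 2
  have e1 : al * c1 = A 0 1 := by rw [hc1]; field_simp
  have e2 : al * c2 = A 0 2 := by rw [hc2]; field_simp
  have e3 : be + al * c1 ^ 2 = A 1 1 := by rw [hbe, hc1]; field_simp; ring
  have e4 : be * c3 + al * c1 * c2 = A 1 2 := by
    rw [hc3, mul_div_cancel₀ _ hbe0, hga, hc1, hc2]; field_simp; ring
  have e5 : de + be * c3 ^ 2 + al * c2 ^ 2 = A 2 2 := by
    rw [hde, hc3, hc2]; field_simp; ring
  simp only [Fin.sum_univ_three]
  rw [h10, h20, h21, ← e1, ← e2, ← e3, ← e4, ← e5, ← hal]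
  simp only [map_add, map_mul, map_pow]
  ring

theorem conic : Pool.Agent.Y201.C3.S_CONIC := by
  intro K M _ _ _ _ A hA hani hna v hv hgen
  obtain ⟨al, hal⟩ : ∃ x, x = A 0 0 := ⟨_, rfl⟩
  obtain ⟨c1, hc1⟩ : ∃ x, x = A 0 1 / al := ⟨_, rfl⟩
  obtain ⟨c2, hc2⟩ : ∃ x, x = A 0 2 / al := ⟨_, rfl⟩
  obtain ⟨be, hbe⟩ : ∃ x, x = A 1 1 - A 0 1 ^ 2 / al := ⟨_, rfl⟩
  obtain ⟨ga, hga⟩ : ∃ x, x = A 1 2 - A 0 1 * A 0 2 / al := ⟨_, rfl⟩
  obtain ⟨c3, hc3⟩ : ∃ x, x = ga / be := ⟨_, rfl⟩
  obtain ⟨de, hde⟩ : ∃ x, x = A 2 2 - A 0 2 ^ 2 / al - ga ^ 2 / be := ⟨_, rfl⟩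
  have h10 : A 1 0 = A 0 1 := hA.apply 0 1
  have hal0 : al ≠ 0 := by
    intro h
    have h1 := hani ![1, 0, 0] (by
      simp only [Fin.sum_univ_three]
      simp [← hal, h])
    have := congrFun h1 0
    simp at this
  have hbe0 : be ≠ 0 := by
    intro h
    have e1 : al * c1 = A 0 1 := by rw [hc1]; field_simp
    have e3 : be + al * c1 ^ 2 = A 1 1 := by rw [hbe, hc1]; field_simp; ring
    have h1 := hani ![-c1, 1, 0] (by
      simp only [Fin.sum_univ_three]
      change -c1 * A 0 0 * -c1 + -c1 * A 0 1 * 1 + -c1 * A 0 2 * 0 +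
        (1 * A 1 0 * -c1 + 1 * A 1 1 * 1 + 1 * A 1 2 * 0) +
        (0 * A 2 0 * -c1 + 0 * A 2 1 * 1 + 0 * A 2 2 * 0) = 0
      rw [h10, ← hal, ← e1, ← e3, h]
      ring)
    have := congrFun h1 1
    simp at this
  obtain ⟨a, ha⟩ : ∃ x, x = -be / al := ⟨_, rfl⟩
  obtain ⟨b, hb⟩ : ∃ x, x = -de / al := ⟨_, rfl⟩
  have hdiag : ∀ w : Fin 3 → M, ∑ i, ∑ j, w i * algebraMap K M (A i j) * w j = 0 →
      (w 0 + algebraMap K M c1 * w 1 + algebraMap K M c2 * w 2) ^ 2 =
        algebraMap K M a * (w 1 + algebraMap K M c3 * w 2) ^ 2 + algebraMap K M b * w 2 ^ 2 := by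
    intro w hw
    rw [diag hA hal hal0 hc1 hc2 hbe hbe0 hga hc3 hde w] at hw
    have halM : algebraMap K M al ≠ 0 := (_root_.map_ne_zero _).2 hal0
    apply mul_left_cancel₀ halM
    rw [ha, hb, map_div₀, map_div₀, map_neg, map_neg]
    field_simp
    linear_combination hw
  have hK : ∀ x y z : K, x ^ 2 = a * y ^ 2 + b * z ^ 2 → x = 0 ∧ y = 0 ∧ z = 0 := by
    intro x y z h
    have h1 := diag (M := K) hA hal hal0 hc1 hc2 hbe hbe0 hga hc3 hde
      ![x - c1 * (y - c3 * z) - c2 * z, y - c3 * z, z]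
    have h2 : ∑ i, ∑ j, (![x - c1 * (y - c3 * z) - c2 * z, y - c3 * z, z] : Fin 3 → K) i * A i j *
        (![x - c1 * (y - c3 * z) - c2 * z, y - c3 * z, z] : Fin 3 → K) j = 0 := by
      refine Eq.trans h1 ?_
      change al * ((x - c1 * (y - c3 * z) - c2 * z) + c1 * (y - c3 * z) + c2 * z) ^ 2 +
        be * ((y - c3 * z) + c3 * z) ^ 2 + de * z ^ 2 = 0
      have h3 : al * x ^ 2 = -be * y ^ 2 - de * z ^ 2 := by
        rw [h, ha, hb]
        field_simp
        ring
      linear_combination h3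
    have h4 := hani _ h2
    have hz : z = 0 := congrFun h4 2
    have hy : y - c3 * z = 0 := congrFun h4 1
    have hx : x - c1 * (y - c3 * z) - c2 * z = 0 := congrFun h4 0
    rw [hz, mul_zero, sub_zero] at hy
    rw [hz, hy] at hx
    refine ⟨?_, hy, hz⟩
    simpa using hx
  haveI hfact : Fact (∀ r : K, r ^ 2 ≠ a + 0 * r) := ⟨fun r hr => by
    have := (hK r 1 0 (by rw [hr]; ring)).2.1
    exact one_ne_zero this⟩
  have hb0 : b ≠ 0 := by
    intro h
    have := (hK 0 0 1 (by rw [h]; ring)).2.2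
    exact one_ne_zero this
  have hnorm : ∀ x y : K, x ^ 2 - a * y ^ 2 ≠ b := by
    intro x y h
    have := (hK x y 1 (by rw [← h]; ring)).2.2
    exact one_ne_zero this
  -- the third coordinate is not zero
  have key : ∀ w : Fin 3 → M, ∑ i, ∑ j, w i * algebraMap K M (A i j) * w j = 0 → w 2 = 0 →
      w 1 = 0 ∧ w 0 = 0 ∨ w 1 ≠ 0 ∧ IsAlgebraic K (w 0 / w 1) ∧
        (w 0 / w 1 + algebraMap K M c1) ^ 2 = algebraMap K M a := by
    intro w hw h2
    have h3 := hdiag w hw
    rw [h2, mul_zero, add_zero, mul_zero, add_zero, zero_pow two_ne_zero, mul_zero, add_zero] at h3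
    by_cases h1 : w 1 = 0
    · left
      rw [h1, mul_zero, add_zero, zero_pow two_ne_zero, mul_zero] at h3
      exact ⟨h1, pow_eq_zero_iff two_ne_zero |>.1 h3⟩
    · right
      have h4 : (w 0 / w 1 + algebraMap K M c1) ^ 2 = algebraMap K M a := by
        field_simp
        linear_combination h3
      refine ⟨h1, ?_, h4⟩
      have h5 : IsAlgebraic K (w 0 / w 1 + algebraMap K M c1) := by
        refine ⟨X ^ 2 - C a, (monic_X_pow_sub_C a two_ne_zero).ne_zero, ?_⟩
        rw [map_sub, map_pow, aeval_X, aeval_C, h4, sub_self]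
      have h6 := h5.sub (isAlgebraic_algebraMap (R := K) (A := M) c1)
      rwa [add_sub_cancel_right] at h6
  have hv2 : v 2 ≠ 0 := by
    intro h2
    apply hna
    have hall : ∀ z ∈ {z : M | ∃ i j, z = v i / v j}, IsIntegral K z := by
      rcases key v hv h2 with ⟨h1, h0⟩ | ⟨h1, halg, _⟩
      · have hz : ∀ i, v i = 0 := by
          intro i
          fin_cases i
          · exact h0
          · exact h1
          · exact h2
        rintro z ⟨i, j, rfl⟩
        rw [hz i, zero_div]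
        exact isIntegral_zero
      · have hmu : ∀ i, IsAlgebraic K (v i / v 1) := by
          intro i
          fin_cases i
          · exact halg
          · change IsAlgebraic K (v 1 / v 1)
            rw [div_self h1]
            exact isAlgebraic_one
          · change IsAlgebraic K (v 2 / v 1)
            rw [h2, zero_div]
            exact isAlgebraic_zero
        rintro z ⟨i, j, rfl⟩
        have h3 : v i / v j = (v i / v 1) / (v j / v 1) := by
          rw [div_div_div_cancel_right₀ h1]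
        rw [h3, div_eq_mul_inv]
        exact ((hmu i).mul (hmu j).inv).isIntegral
    have h5 := isAlgebraic_adjoin hall
    rw [hgen] at h5
    exact (IntermediateField.topEquiv (F := K) (E := M)).isAlgebraic
  -- the model
  set x0 := (v 0 + algebraMap K M c1 * v 1 + algebraMap K M c2 * v 2) / v 2 with hx0
  set y0 := (v 1 + algebraMap K M c3 * v 2) / v 2 with hy0
  have norml : ∀ w : Fin 3 → M, ∑ i, ∑ j, w i * algebraMap K M (A i j) * w j = 0 → w 2 ≠ 0 →
      ((w 0 + algebraMap K M c1 * w 1 + algebraMap K M c2 * w 2) / w 2) ^ 2 =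
        algebraMap K M a * ((w 1 + algebraMap K M c3 * w 2) / w 2) ^ 2 + algebraMap K M b := by
    intro w hw h2
    have h3 := hdiag w hw
    rw [div_pow, div_pow, h3]
    field_simp
  have hrel0 := norml v hv hv2
  have hgen0 : adjoin K {x0, y0} = ⊤ := by
    rw [← hgen]
    exact (ratio_eq c1 c2 c3 v hv2).symm
  obtain ⟨j, hjc, hjX⟩ := exists_j a b hna hrel0 hb0 hgen0
  have hconst := constants a b hb0 hrel0 hjc hgen0 hjX
  refine ⟨hconst, ?_⟩
  intro v' hv'0 hv'
  have h2' : v' 2 ≠ 0 := by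
    intro h2
    rcases key v' hv' h2 with ⟨h1, h0⟩ | ⟨h1, halg, hsq⟩
    · apply hv'0
      funext i
      fin_cases i
      · exact h0
      · exact h1
      · exact h2
    · obtain ⟨c, hc⟩ := hconst _ halg
      rw [hc, ← map_add, ← map_pow] at hsq
      have h3 := (algebraMap K M).injective hsq
      exact hfact.out (c + c1) (by rw [h3]; ring)
  rw [ratio_eq c1 c2 c3 v' h2']
  exact odd_core a b hb0 hrel0 hjc hgen0 hjX hnorm (norml v' hv' h2')

end Pool.Agent.X328.NC.Conic
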