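import Pool.Agent.Y201.LI.Free
import Pool.Agent.Y201.LI.Thm3
import Pool.Agent.Y246.C3.Cb
import Pool.Agent.X328.NC.ConicT
import Pool.Agent.X328.NC.Ani2
import Pool.Agent.X44.NC.Net
import Pool.Agent.X44.NC.Inv
import Pool.Agent.X288.NC.RIG
import Pool.Agent.X288.NC.AVOID
import Pool.Agent.X1.NC.ETA
import Pool.Agent.X167.NC.Arc

/-! # Smooth cubic fourfolds have no parametrization of degree three

The parts: CONIC, AN, ANI2 helper328; NET, INV helper44; RIG, AVOID helper288; ETA helper1;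
ARC helper167; main argument: starting library, `Pool.Agent.Y201.LI.Free.no_cubic`. -/

set_option autoImplicit false

namespace Pool.Agent.X328.NC

open Pool.Agent.Y201.LI Pool.Agent.Y201.C3 MvPolynomial Pool.Agent.TH314.PD

/-- **No parametrization of degree at most three.** -/
theorem no_cubic_param (F : MvPolynomial (Fin 6) ℂ) (hF : F.IsHomogeneous 3)
    (hsm : ∀ z : Fin 6 → ℂ, (∀ i, eval z (pderiv i F) = 0) → z = 0)
    (N : ℕ) (G : Fin 6 → MvPolynomial (Fin N) ℂ) (hdeg : ∀ i, (G i).totalDegree ≤ 3)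
    (hFG : aeval G F = 0)
    (hdom : ∀ (e : ℕ) (H : MvPolynomial (Fin 6) ℂ), H.IsHomogeneous e → aeval G H = 0 → F ∣ H) :
    False := by
  obtain ⟨T, hT, rfl⟩ := exists_tri F hF
  have hS : SmoothT T := by
    intro z hz
    apply hsm
    intro i
    have h1 := pderiv_frmG hT i z
    have h2 := hz i
    rw [smooth_iff, Bf_eq] at h2
    rw [h2, mul_zero] at h1
    rw [← h1, MvPolynomial.aeval_def, MvPolynomial.eval₂_eq_eval_map]
    simp
  exact no_cubic (Pool.Agent.Y246.C3.cb Conic.conic) (Ani.ani2 Pool.Agent.X1.NC.t)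
    (Pool.Agent.X288.NC.AVOID.t Pool.Agent.X44.NC.Net.t Pool.Agent.X288.NC.RIG.t)
    Pool.Agent.X167.NC.arc Pool.Agent.X44.NC.Inv.t hT1 hT hS hsm N G hdeg ⟨hFG, hdom⟩

end Pool.Agent.X328.NC
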